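import Pool.Agent.Lib.MP_bf91d6_an.Mel.Cert

set_option autoImplicit false

namespace Pool.Agent.Lib.MP_bf91d6_an.Mel

noncomputable def hA (n k s : ℝ) : ℝ := (1 + n * s) / s ^ 2 - k / s
noncomputable def hB (n k s : ℝ) : ℝ := (1 + n * s) / (1 - s) ^ 2 + k / (1 - s)
noncomputable def dA (n k s : ℝ) : ℝ := -2 / s ^ 3 - (n - k) / s ^ 2
noncomputable def dB (n k s : ℝ) : ℝ := 2 * (1 + n) / (1 - s) ^ 3 - (n - k) / (1 - s) ^ 2
noncomputable def gam (n k s : ℝ) : ℝ := 1 / s - 1 / (1 - s) - (3 * k + 2 * n) / (1 + n * s)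
noncomputable def hh (n k b c s : ℝ) : ℝ := -hA n k s + b * hB n k s + c
noncomputable def TT (n k b c s : ℝ) : ℝ := -dA n k s + b * dB n k s - gam n k s * hh n k b c s
noncomputable def ff (k b c s : ℝ) : ℝ := k / s + k * b / (1 - s) + c
def Nn (n k s : ℝ) : ℝ := 3 * k * (1 + n - k) * s ^ 2 + (5 * k - 3 * n - 2) * s - 3
def PT (n k t s : ℝ) : ℝ :=
  -Nn n k s * (k + (1 + n - k) * s) - t * (1 - s) * (1 + (1 + n - k) * s) ^ 2

structure Th (n k t : ℝ) : Prop where
  nonneg : 0 ≤ t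
  P : ∀ s, 0 < s → s ≠ 1 → 0 < 1 + n * s → 0 < PT n k t s
  c2 : ∀ s, 1 < s → 0 < 1 + n * s → t * (1 + n * s) * (s - 1) ≤
    ((t - 3 * k) * s ^ 2 * (s - 1) + s * (s - 1) + (1 + n) * s ^ 2) * (k + (1 + n - k) * s)
  b2 : ∀ s, 1 < s → 0 < 1 + n * s → 2 * t * (1 + n * s) * (s - 1) ≤
    ((2 * t - 4 * k) * s * (s - 1) + 3 * (1 + n) * s) * (k + (1 + n - k) * s)

theorem th_one {n k : ℝ} (hn : -1 < n) (h0 : 0 < k) (h1 : k < 1)
    (h : 1 / 3 ≤ 1 + n ∨ k ≤ 1 + n) : Th n k (3 * k) := by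
  have h3 : k ≤ 3 * (1 + n) := by rcases h with h | h <;> linarith
  refine ⟨by positivity, fun s hs _ hl => ?_, fun s hs hl => ?_, fun s hs hl => ?_⟩
  · have : PT n k (3 * k) s = (1 - k) * s * ((1 + n * s) * (3 * (1 + n) - k) +
        2 * (1 + n) * (1 - k) * s) := by unfold PT Nn; ring
    rw [this]
    have a1 : 0 < 1 - k := by linarith
    have a2 : 0 < 1 + n := by linarith
    have a3 : 0 ≤ 3 * (1 + n) - k := by linarith
    positivity
  · have hW : 1 + n * s ≤ k + (1 + n - k) * s := by nlinarith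
    have hZ : 0 < s - 1 := by linarith
    have h4 : 3 * k * (s - 1) ≤ s * (s - 1) + (1 + n) * s ^ 2 := by
      rcases le_or_gt (1 / 3) (1 + n) with h5 | h5
      · nlinarith [sq_nonneg (1 - 2 * (s - 1)), mul_nonneg (sub_nonneg.2 h5) (sq_nonneg s),
          mul_pos hZ (sub_pos.2 h1)]
      · have h6 : k ≤ 1 + n := by rcases h with h | h <;> linarith
        have : 0 < 1 + n := by linarith
        nlinarith [mul_pos hZ hZ, mul_pos this (sq_pos_of_pos (by linarith : 0 < s))]
    have h7 : 0 ≤ 3 * k * (s - 1) := by positivity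
    calc 3 * k * (1 + n * s) * (s - 1) = 3 * k * (s - 1) * (1 + n * s) := by ring
      _ ≤ (s * (s - 1) + (1 + n) * s ^ 2) * (k + (1 + n - k) * s) :=
        mul_le_mul h4 hW hl.le (h7.trans h4)
      _ = _ := by ring
  · have hW : 1 + n * s ≤ k + (1 + n - k) * s := by nlinarith
    have hZ : 0 < s - 1 := by linarith
    have h4 : 6 * k * (s - 1) ≤ 2 * k * s * (s - 1) + 3 * (1 + n) * s := by
      have h8 : s - 1 < (1 + n) * s := by linarith
      rcases le_or_gt (1 / 3) (1 + n) with h5 | h5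
      · rcases le_or_gt 2 (s - 1) with h9 | h9
        · nlinarith [mul_nonneg (mul_pos h0 hZ).le (sub_nonneg.2 h9)]
        · have e1 : 0 ≤ (1 - k) * ((s - 1) * (2 - (s - 1))) :=
            mul_nonneg (by linarith) (mul_nonneg hZ.le (by linarith))
          rcases le_or_gt (1 / 2) (s - 1) with h10 | h10
          · nlinarith [mul_nonneg hZ.le (sub_nonneg.2 h10)]
          · nlinarith [mul_nonneg (sub_nonneg.2 h5) (by linarith : 0 ≤ s),
              mul_pos (sub_pos.2 h10) (by linarith : 0 < 1 - (s - 1))]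
      · have h6 : k ≤ 1 + n := by rcases h with h | h <;> linarith
        nlinarith [mul_pos (mul_pos h0 hZ) (by linarith : 0 < s),
          mul_pos hZ (by linarith : 0 < 1 - 2 * k)]
    have h7 : 0 ≤ 6 * k * (s - 1) := by positivity
    calc 2 * (3 * k) * (1 + n * s) * (s - 1) = 6 * k * (s - 1) * (1 + n * s) := by ring
      _ ≤ (2 * k * s * (s - 1) + 3 * (1 + n) * s) * (k + (1 + n - k) * s) :=
        mul_le_mul h4 hW hl.le (h7.trans h4)
      _ = _ := by ring

theorem th_two {n k : ℝ} (hn : -1 < n) (h1 : 1 + n < 1 / 3) (h2 : 1 + n < k)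
    (h3 : 3 * k ≤ 3 * n + 5) : ∃ t, Th n k t := by
  obtain ⟨y, rfl⟩ : ∃ y, k = 1 + n + y := ⟨k - (1 + n), by ring⟩
  obtain ⟨N, rfl⟩ : ∃ N, n = N - 1 := ⟨1 + n, by ring⟩
  have hN : 0 < N := by linarith
  have hy : 0 < y := by linarith
  have hy2 : 0 ≤ 2 - 3 * y := by linarith
  have ha : 0 < 1 - 3 * N := by linarith
  have hy1 : 0 < 1 - y := by linarith
  have hk : 0 < 1 - (N + y) := by linarith
  obtain ⟨D, hD⟩ : ∃ D, D * (1 - y) ^ 2 = (1 - (N + y)) * y * (1 - 3 * N) :=
    ⟨_, div_mul_cancel₀ _ (by positivity)⟩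
  have hσ : 0 < (1 - (N + y)) * y * (1 - 3 * N) := by positivity
  have hD0 : 0 < D := by
    rw [← hD] at hσ
    exact (mul_pos_iff_of_pos_right (by positivity)).1 hσ
  refine ⟨3 * (N + y) - D, ?_, fun s hs hs1 hl => ?_, fun s hs hl => ?_, fun s hs hl => ?_⟩
  · have : D * (1 - y) ^ 2 ≤ 3 * (N + y) * (1 - y) ^ 2 := by
      rw [hD]
      have e1 : (1 - (N + y)) * y * (1 - 3 * N) ≤ (1 - y) * y * 1 :=
        mul_le_mul (mul_le_mul_of_nonneg_right (by linarith) hy.le) (by linarith) ha.le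
          (by positivity)
      have e2 : 0 ≤ (1 - y) * y * (2 - 3 * y) := by positivity
      have e3 : 0 ≤ N * (1 - y) ^ 2 := by positivity
      nlinarith
    have := le_of_mul_le_mul_right this (by positivity)
    linarith
  · have e : PT (N - 1) (1 + (N - 1) + y) (3 * (N + y) - D) s =
        (1 - (N + y)) * s * (N * (2 - 3 * y)) +
          (1 - (N + y)) * y * (1 - 3 * N) * (s - 1) ^ 2 +
          D * y * (s - 1) ^ 2 * ((1 - y) + (1 - y * s)) := by
      unfold PT Nn
      linear_combination (-(s - 1)) * hD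
    rw [e]
    have e1 : 0 < (s - 1) ^ 2 := by positivity
    have e2 : 0 < 1 - y * s := by nlinarith
    positivity
  · have := cert_c N y (s - 1) (1 + (N - 1) * s) _ _ D hN hy.le (by linarith) hl ha.le hy2 rfl rfl
      (by ring) hD
    (convert this using 1; ring)
  · have := cert_b N y (s - 1) (1 + (N - 1) * s) _ _ D hN hy.le (by linarith) hl ha.le hy2 rfl rfl
      (by ring) hD
    (convert this using 1; ring)

theorem th_exists {n k : ℝ} (hn : -1 < n) (h0 : 0 < k) (h1 : k < 1) (h3 : 3 * k ≤ 3 * n + 5) :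
    ∃ t, Th n k t := by
  by_cases h : 1 / 3 ≤ 1 + n ∨ k ≤ 1 + n
  · exact ⟨_, th_one hn h0 h1 h⟩
  · push Not at h
    exact th_two hn h.1 h.2 h3

theorem Nn_neg {n k s : ℝ} (hn : -1 < n) (hk : k ≤ 0) (hs : 0 < s) (hl : 0 < 1 + n * s) :
    Nn n k s < 0 := by
  have h1 : 0 ≤ -k * (1 + n - k) * s ^ 2 :=
    mul_nonneg (mul_nonneg (by linarith) (by linarith)) (sq_nonneg s)
  have h2 : 0 ≤ -k * s := mul_nonneg (by linarith) hs.le
  unfold Nn
  nlinarith

theorem Lp_abs {K h T T1 l f F t : ℝ} (hK : 0 < K) (hh : K ≤ h) (hT : K * T1 ≤ h * T)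
    (hl : 0 < l) (hF : 0 < F) (hf : F ≤ f) (ht : 0 ≤ t) (hP : t * h ^ 2 < l * T1 * F) :
    t * K ^ 2 < T * l * f := by
  have h0 : 0 < h := hK.trans_le hh
  have h1 : 0 < T1 := by
    have : 0 < l * F * T1 := by nlinarith [mul_nonneg ht (sq_nonneg h)]
    exact (mul_pos_iff_of_pos_left (mul_pos hl hF)).1 this
  have h2 : K * T1 * (l * F) ≤ h * T * (l * f) :=
    mul_le_mul hT (mul_le_mul_of_nonneg_left hf hl.le) (by positivity)
      ((mul_pos hK h1).le.trans hT)
  have h3 : K * (t * h ^ 2) < K * (l * T1 * F) := mul_lt_mul_of_pos_left hP hK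
  have h4 : t * K * h * K ≤ t * K * h * h := mul_le_mul_of_nonneg_left hh (by positivity)
  have h5 : h * (t * K ^ 2) < h * (T * l * f) := by nlinarith
  exact lt_of_mul_lt_mul_left h5 h0.le

theorem Rp_abs {t g τ β j f F b : ℝ} (hF : 0 < F) (hf : F ≤ f) (hb : 0 ≤ b) (ht : 0 ≤ t)
    (hj : 0 < j) (hP : (τ - g * F) * F < t * (F - j) ^ 2) (hc : t * j ^ 2 ≤ (t + g) * F ^ 2)
    (hβ : 2 * t * j ≤ (2 * t - β) * F) : (τ - g * f + β * b) * f < t * (f - j + b) ^ 2 := by
  have h0 : 0 < f := hF.trans_le hf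
  have h1 : 0 ≤ t + g := by
    have : 0 ≤ (t + g) * F ^ 2 := (mul_nonneg ht (sq_nonneg j)).trans hc
    exact nonneg_of_mul_nonneg_left this (by positivity)
  have h2 : 0 ≤ 2 * t - β := by
    have : 0 ≤ (2 * t - β) * F := le_trans (by positivity) hβ
    exact nonneg_of_mul_nonneg_left this hF
  have h3 : 0 ≤ b * ((2 * t - β) * f - 2 * t * j) :=
    mul_nonneg hb (by nlinarith [mul_le_mul_of_nonneg_left hf h2])
  have h4 : 0 ≤ (f - F) * ((t + g) * f * F - t * j ^ 2) :=
    mul_nonneg (sub_nonneg.2 hf) (by nlinarith [mul_nonneg (mul_nonneg h1 hF.le) (sub_nonneg.2 hf)])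
  have h5 : 0 < (t * (F - j) ^ 2 - (τ - g * F) * F) * f := mul_pos (sub_pos.2 hP) h0
  have h6 : 0 < (t * (f - j) ^ 2 - (τ - g * f) * f) * F := by nlinarith
  have h7 : 0 < t * (f - j) ^ 2 - (τ - g * f) * f := (mul_pos_iff_of_pos_right hF).1 h6
  nlinarith [mul_nonneg ht (sq_nonneg b)]

theorem Lm_abs {T0 β γ b K j h : ℝ} (h0 : 0 < T0) (hb : 0 ≤ b) (hK : 0 ≤ K) (hj : b + K ≤ j)
    (hh : b + K ≤ h) (h1 : 0 < T0 + j * β) (h2 : 0 < T0 + h * γ) : 0 < T0 + b * β + K * γ := by
  rcases le_total β γ with h3 | h3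
  · rcases le_total 0 β with h4 | h4
    · nlinarith [mul_nonneg hb h4, mul_nonneg hK (h4.trans h3)]
    · nlinarith [mul_nonneg hK (sub_nonneg.2 h3), mul_nonneg (sub_nonneg.2 hj) (neg_nonneg.2 h4)]
  · rcases le_total 0 γ with h4 | h4
    · nlinarith [mul_nonneg hK h4, mul_nonneg hb (h4.trans h3)]
    · nlinarith [mul_nonneg hb (sub_nonneg.2 h3), mul_nonneg (sub_nonneg.2 hh) (neg_nonneg.2 h4)]

theorem Lp {n k t b c s : ℝ} (hn : -1 < n) (h0 : 0 < k) (h1 : k < 1) (H : Th n k t)
    (hs : 0 < s) (hs1 : s < 1) (hb : 0 ≤ b) (hc : 1 + n - k ≤ c) (hh0 : hh n k b c s < 0) :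
    t * hh n k b c s ^ 2 < TT n k b c s * (1 + n * s) * ff k b c s ∧ 0 < ff k b c s := by
  have hl : 0 < 1 + n * s := by nlinarith
  have hX : 0 < 1 - s := by linarith
  have hN : 0 < 1 + n := by linarith
  have hW : 0 < k + (1 + n - k) * s := by nlinarith
  have hF : 0 < (k + (1 + n - k) * s) / s := by positivity
  have hf : (k + (1 + n - k) * s) / s ≤ ff k b c s := by
    have : 0 ≤ k * b / (1 - s) := by positivity
    have e : (k + (1 + n - k) * s) / s = k / s + (1 + n - k) := by field_simp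
    unfold ff; linarith
  refine ⟨?_, hF.trans_le hf⟩
  have hBp : 0 ≤ b * hB n k s := by unfold hB; positivity
  have hdA : 0 ≤ -dA n k s := by
    have e : -dA n k s = (2 + (n - k) * s) / s ^ 3 := by unfold dA; field_simp; ring
    have : 0 < 2 + (n - k) * s := by nlinarith
    rw [e]; positivity
  have hdB : 0 ≤ b * dB n k s := by
    have e : dB n k s = (2 * (1 + n) - (n - k) * (1 - s)) / (1 - s) ^ 3 := by
      unfold dB; field_simp
    have : 0 < 2 * (1 + n) - (n - k) * (1 - s) := by nlinarith [mul_pos h0 hX]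
    rw [e]; positivity
  have hK : -hh n k b c s ≤ hA n k s - (1 + n - k) := by unfold hh; linarith
  have := Lp_abs (K := -hh n k b c s) (h := hA n k s - (1 + n - k)) (T := TT n k b c s)
    (T1 := -dA n k s + gam n k s * (hA n k s - (1 + n - k))) (by linarith) hK ?_ hl hF hf
    H.nonneg ?_
  · simpa using this
  · have e1 := mul_nonneg (sub_nonneg.2 hK) hdA
    have e2 := mul_nonneg ((neg_nonneg.2 hh0.le).trans hK) hdB
    unfold TT
    nlinarith
  · have e : (1 + n * s) * (-dA n k s + gam n k s * (hA n k s - (1 + n - k))) *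
        ((k + (1 + n - k) * s) / s) - t * (hA n k s - (1 + n - k)) ^ 2 =
        (1 - s) * PT n k t s / s ^ 4 := by
      unfold PT Nn dA gam hA
      field_simp
      ring
    have := H.P s hs hs1.ne hl
    have : 0 < (1 - s) * PT n k t s / s ^ 4 := by positivity
    linarith

theorem Rp {n k t b c s : ℝ} (h1 : k < 1) (H : Th n k t)
    (hs : 1 < s) (hl : 0 < 1 + n * s) (hb : 0 ≤ b) (hc : 1 + n - k + b * k / (s - 1) ≤ c) :
    TT n k b c s * (1 + n * s) * ff k b c s < t * hh n k b c s ^ 2 ∧ 0 < ff k b c s := by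
  have hZ : 0 < s - 1 := by linarith
  have eX : 1 - s = -(s - 1) := by ring
  have hl' : 1 + s * n ≠ 0 := by rw [mul_comm]; exact hl.ne'
  have hs0 : 0 < s := by linarith
  have hW' : 1 + n * s ≤ k + (1 + n - k) * s := by nlinarith
  have hW : 0 < k + (1 + n - k) * s := hl.trans_le hW'
  have hF : 0 < (k + (1 + n - k) * s) / s := by positivity
  have hf : (k + (1 + n - k) * s) / s ≤ ff k b c s := by
    have e : (k + (1 + n - k) * s) / s = k / s + (1 + n - k) := by field_simp
    have e2 : k * b / (1 - s) = -(b * k / (s - 1)) := by rw [eX]; field_simp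
    unfold ff; linarith
  refine ⟨?_, hF.trans_le hf⟩
  have := Rp_abs (t := t) (g := 1 / s + (1 + n) / (s - 1) - 3 * k)
    (τ := (1 + n * s) / s ^ 2 * (3 / s + n - 4 * k + (1 + n) / (s - 1)))
    (β := 4 * k - n - 1 / s - 3 * (1 + n) / (s - 1)) (j := (1 + n * s) / s ^ 2)
    (b := b * (1 + n * s) / (s - 1) ^ 2) hF hf (by positivity) H.nonneg (by positivity) ?_ ?_ ?_
  · convert this using 1
    · unfold TT dA dB gam hh hA hB ff
      rw [eX]
      field_simp
      ring
    · unfold hh hA hB ff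
      rw [eX]
      field_simp
      ring
  · rw [← sub_pos]
    have := H.P s hs0 hs.ne' hl
    have : 0 < (s - 1) * PT n k t s / s ^ 4 := by positivity
    convert this using 1
    unfold PT Nn
    field_simp
    ring
  · rw [← sub_nonneg]
    have e1 := H.c2 s hs hl
    have e2 : 0 ≤ t * (1 + n * s) * (s - 1) := by have := H.nonneg; positivity
    have e3 := mul_le_mul e1 hW' hl.le (e2.trans e1)
    have : 0 ≤ (((t - 3 * k) * s ^ 2 * (s - 1) + s * (s - 1) + (1 + n) * s ^ 2) *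
      (k + (1 + n - k) * s) * (k + (1 + n - k) * s) - t * (1 + n * s) * (s - 1) * (1 + n * s)) /
        (s ^ 4 * (s - 1)) := div_nonneg (sub_nonneg.2 e3) (by positivity)
    convert this using 1
    field_simp
    ring
  · rw [← sub_nonneg]
    have e1 := H.b2 s hs hl
    have e2 : 0 ≤ (1 + n * s) * (s - 1) * (k + (1 + n - k) * s) := by positivity
    have : 0 ≤ (((2 * t - 4 * k) * s * (s - 1) + 3 * (1 + n) * s) * (k + (1 + n - k) * s) -
      2 * t * (1 + n * s) * (s - 1) + (1 + n * s) * (s - 1) * (k + (1 + n - k) * s)) /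
        (s ^ 2 * (s - 1)) := div_nonneg (by linarith) (by positivity)
    convert this using 1
    field_simp
    ring

theorem Lm {n k b c s : ℝ} (hn : -1 < n) (hk : k ≤ 0) (hs : 0 < s) (hs1 : s < 1) (hb : 0 ≤ b)
    (hc : 1 + n - k ≤ c + k * b / (1 - s)) (hc2 : 0 ≤ ff k b c s) (hh0 : hh n k b c s < 0) :
    0 < TT n k b c s := by
  have hl : 0 < 1 + n * s := by nlinarith
  have hl' : 1 + s * n ≠ 0 := by rw [mul_comm]; exact hl.ne'
  have hX : 0 < 1 - s := by linarith
  have hN : 0 < 1 + n := by linarith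
  have e0 : b * (1 + n * s) / (1 - s) ^ 2 + -hh n k b c s = (1 + n * s) / s ^ 2 - ff k b c s := by
    unfold hh hA hB ff; field_simp; ring
  have := Lm_abs (T0 := -dA n k s) (β := (2 * (1 + n) / (1 - s) - (n - k)) / (1 + n * s))
    (γ := gam n k s) (b := b * (1 + n * s) / (1 - s) ^ 2) (K := -hh n k b c s)
    (j := (1 + n * s) / s ^ 2) (h := hA n k s - (1 + n - k)) ?_ (by positivity) (by linarith)
    (by linarith) ?_ ?_ ?_
  · convert this using 1
    unfold TT dB
    field_simp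
    ring
  · have e : -dA n k s = (2 + (n - k) * s) / s ^ 3 := by unfold dA; field_simp; ring
    have : 0 < 2 + (n - k) * s := by nlinarith
    rw [e]; positivity
  · rw [e0]; unfold hA ff; linarith
  · have : 0 < 2 / s ^ 3 + 2 * (1 + n) / ((1 - s) * s ^ 2) := by positivity
    convert this using 1
    unfold dA
    field_simp
    ring
  · have h1 := neg_pos.2 (Nn_neg hn hk hs hl)
    have : 0 < (1 - s) * -Nn n k s / (s ^ 3 * (1 + n * s)) := by positivity
    convert this using 1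
    unfold dA gam hA Nn
    field_simp
    ring

theorem Rm {n k b c s : ℝ} (hn : -1 < n) (hk : k ≤ 0) (hs : 1 < s) (hl : 0 < 1 + n * s)
    (hb : 0 ≤ b) (hc : 1 + n - k ≤ c) : TT n k b c s < 0 := by
  have hZ : 0 < s - 1 := by linarith
  have eX : 1 - s = -(s - 1) := by ring
  have hl' : 1 + s * n ≠ 0 := by rw [mul_comm]; exact hl.ne'
  have hs0 : 0 < s := by linarith
  have hN : 0 < 1 + n := by linarith
  have hk' : 0 ≤ -k := by linarith
  have h1 := neg_pos.2 (Nn_neg hn hk hs0 hl)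
  have e : -TT n k b c s = (s - 1) * -Nn n k s / (s ^ 3 * (1 + n * s)) +
      (1 / s + (1 + n) / (s - 1) + 3 * -k) / (1 + n * s) * (c - (1 + n - k)) +
      b * (((1 + n) + ((1 + n * s) + -k * (s - 1))) / (s - 1) ^ 3 +
        (1 / s + (1 + n) / (s - 1) + 3 * -k) / (1 + n * s) *
          (((1 + n * s) + -k * (s - 1)) / (s - 1) ^ 2)) := by
    unfold TT dA dB gam hh hA hB Nn
    rw [eX]
    field_simp
    ring
  have h2 : 0 ≤ c - (1 + n - k) := by linarith
  rw [← neg_pos, e]
  positivity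

theorem hA_lt {n k s : ℝ} (h1 : k < 1) (hs : 1 < s) (hl : 0 < 1 + n * s) :
    hA n k s < 1 + n - k := by
  have hs0 : 0 < s := by linarith
  have h2 : 0 < 1 + (1 + n - k) * s := by nlinarith
  have h3 : 0 < s - 1 := by linarith
  have : 0 < (s - 1) * (1 + (1 + n - k) * s) / s ^ 2 := by positivity
  rw [← sub_pos]
  convert this using 1
  unfold hA
  field_simp
  ring

theorem hB_left {n k x z w v : ℝ} (hx1 : x < 1) (hz : 1 < z) (hl : 0 < 1 + n * x)
    (hv : 0 < v) (e : v = w + k) : 0 < hB n k x + (w / (1 - x) + v / (z - 1)) := by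
  have h1 : 0 < 1 - x := by linarith
  have h2 : 0 < z - 1 := by linarith
  have : 0 < (1 + n * x) / (1 - x) ^ 2 + v / (1 - x) + v / (z - 1) := by positivity
  convert this using 1
  unfold hB
  rw [e]
  ring

theorem hB_right {n k x z w v : ℝ} (hx1 : x < 1) (hz : 1 < z) (hl : 0 < 1 + n * z)
    (hw : 0 < w) (e : v = w + k) : 0 < hB n k z + (w / (1 - x) + v / (z - 1)) := by
  have h1 : 0 < 1 - x := by linarith
  have h2 : 0 < z - 1 := by linarith
  have h3 : 1 - z ≠ 0 := by linarith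
  have : 0 < (1 + n * z) / (1 - z) ^ 2 + w / (1 - x) + w / (z - 1) := by positivity
  convert this using 1
  unfold hB
  rw [e]
  field_simp
  ring

theorem key_alg {n k x z b c w v ex ez : ℝ} (hn : -1 < n) (h1 : k < 1) (h3 : 3 * k ≤ 3 * n + 5)
    (hx : 0 < x) (hx1 : x < 1) (hz : 1 < z) (hl : 0 < 1 + n * z) (hb : 0 ≤ b) (hw : 0 < w)
    (hv : 0 < v) (e : v = w + k) (hU : 1 + n - k ≤ w / x - v / z)
    (ec : c = w / x - v / z + b * (w / (1 - x) + v / (z - 1))) (hex : 0 < ex) (hez : 0 < ez)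
    (eh : -hh n k b c x * ex = hh n k b c z * ez) :
    TT n k b c z * (1 + n * z) * ez ^ 2 / v < TT n k b c x * (1 + n * x) * ex ^ 2 / w := by
  have hX : 0 < 1 - x := by linarith
  have hZ : 0 < z - 1 := by linarith
  have hz0 : 0 < z := by linarith
  have hlx : 0 < 1 + n * x := by nlinarith
  have hhz : 0 < hh n k b c z := by
    have a1 := hA_lt h1 hz hl
    have a2 := mul_nonneg hb (hB_right hx1 hz hl hw e).le
    unfold hh
    rw [ec]
    nlinarith
  have hhx : hh n k b c x < 0 := by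
    have : 0 < -hh n k b c x * ex := by rw [eh]; positivity
    exact neg_pos.1 ((mul_pos_iff_of_pos_right hex).1 this)
  have a1 : 0 ≤ b * (w / (1 - x)) := by positivity
  have a2 : 0 ≤ b * (v / (z - 1)) := by positivity
  rcases le_or_gt k 0 with h0 | h0
  · have a3 : 0 ≤ b * (v / (1 - x)) := by positivity
    have a4 : k * b / (1 - x) + b * (w / (1 - x)) = b * (v / (1 - x)) := by rw [e]; ring
    have a5 : k / x + (w / x - v / z) = v * (z - x) / (x * z) := by rw [e]; field_simp; ring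
    have a6 : 0 < v * (z - x) / (x * z) := by
      have : 0 < z - x := by linarith
      positivity
    have b1 := Lm hn h0 hx hx1 hb (by rw [ec]; linarith) (by unfold ff; rw [ec]; linarith) hhx
    have b2 : TT n k b c z < 0 := Rm hn h0 hz hl hb (by rw [ec]; linarith)
    have b3 : 0 < TT n k b c x * (1 + n * x) * ex ^ 2 / w := by positivity
    have b4 : 0 < -TT n k b c z * (1 + n * z) * ez ^ 2 / v := by
      have := neg_pos.2 b2
      positivity
    have : -TT n k b c z * (1 + n * z) * ez ^ 2 / v =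
      -(TT n k b c z * (1 + n * z) * ez ^ 2 / v) := by ring
    linarith
  · obtain ⟨t, H⟩ := th_exists hn h0 h1 h3
    have a3 : b * (v / (z - 1)) = b * k / (z - 1) + b * (w / (z - 1)) := by rw [e]; ring
    have a4 : 0 ≤ b * (w / (z - 1)) := by positivity
    obtain ⟨b1, b2⟩ := Lp hn h0 h1 H hx hx1 hb (by rw [ec]; linarith) hhx
    obtain ⟨b3, b4⟩ := Rp (c := c) h1 H hz hl hb (by rw [ec]; linarith)
    have ef : ff k b c x * w = ff k b c z * v := by
      have : 1 - z ≠ 0 := by linarith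
      have e2 : ff k b c x * w - ff k b c z * v =
          k * (w / x - v / z + b * (w / (1 - x) + v / (z - 1))) + c * (w - v) := by
        unfold ff; field_simp; ring
      rw [← ec, e] at e2
      rw [← sub_eq_zero, e, e2]; ring
    have e2 : hh n k b c x ^ 2 * ex ^ 2 = hh n k b c z ^ 2 * ez ^ 2 := by
      rw [← mul_pow, ← mul_pow, ← eh]; ring
    have c1 := mul_lt_mul_of_pos_right b1 (sq_pos_of_pos hex)
    have c2 := mul_lt_mul_of_pos_right b3 (sq_pos_of_pos hez)
    rw [← mul_div_mul_right _ v b4.ne', ← mul_div_mul_right _ w b2.ne', mul_comm w, mul_comm v, ef]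
    refine div_lt_div_of_pos_right ?_ (by positivity)
    rw [mul_assoc t, e2, ← mul_assoc t] at c1
    linarith

end Pool.Agent.Lib.MP_bf91d6_an.Mel
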