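import Pool.Agent.Lib.MP_bf91d6_an.Mel.Defs

set_option autoImplicit false

namespace Pool.Agent.Lib.MP_bf91d6_an.Mel

open Set MeasureTheory Filter Topology

theorem inv_exists {f f' : ℝ → ℝ} {a b : ℝ} (hab : a < b) (hc : ContinuousOn f (Icc a b))
    (hd : ∀ s ∈ Ioo a b, HasDerivAt f (f' s) s) (hp : ∀ s ∈ Ioo a b, 0 < f' s) :
    ∃ g : ℝ → ℝ, (∀ v ∈ Ioo (f a) (f b), g v ∈ Ioo a b ∧ f (g v) = v ∧
      HasDerivAt g (f' (g v))⁻¹ v) ∧ ∀ s ∈ Ioo a b, f s ∈ Ioo (f a) (f b) ∧ g (f s) = s := by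
  have hm : StrictMonoOn f (Icc a b) := strictMonoOn_of_deriv_pos (convex_Icc a b) hc fun s hs => by
    rw [interior_Icc] at hs
    rw [(hd s hs).deriv]
    exact hp s hs
  have him := hc.image_Ioo_of_strictMonoOn hab.le hm
  have h1 : ∀ v ∈ Ioo (f a) (f b), ∃ s ∈ Ioo a b, f s = v := fun v hv => by rwa [← him] at hv
  choose! g hg1 hg2 using h1
  have sub := @Ioo_subset_Icc_self ℝ _ a b
  have h2 : ∀ s ∈ Ioo a b, f s ∈ Ioo (f a) (f b) ∧ g (f s) = s := fun s hs => by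
    have : f s ∈ Ioo (f a) (f b) := him ▸ mem_image_of_mem f hs
    exact ⟨this, hm.injOn (sub (hg1 _ this)) (sub hs) (hg2 _ this)⟩
  refine ⟨g, fun v hv => ⟨hg1 v hv, hg2 v hv, ?_⟩, h2⟩
  have hn := Ioo_mem_nhds hv.1 hv.2
  refine HasDerivAt.of_local_left_inverse ?_ (hd _ (hg1 v hv)) (hp _ (hg1 v hv)).ne'
    (mem_of_superset hn hg2)
  refine continuousAt_of_monotoneOn_of_image_mem_nhds (fun p hp q hq h => ?_) hn
    (mem_of_superset (Ioo_mem_nhds (hg1 v hv).1 (hg1 v hv).2) fun s hs =>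
      ⟨f s, (h2 s hs).1, (h2 s hs).2⟩)
  rw [← hm.le_iff_le (sub (hg1 p hp)) (sub (hg1 q hq)), hg2 p hp, hg2 q hq]
  exact h

theorem cov {f f' g : ℝ → ℝ} {a b S : ℝ} (hab : a ≤ b)
    (hd : ∀ s ∈ Ioo a b, HasDerivAt f (f' s) s)
    (h1 : ∀ v ∈ Ioo 0 S, g v ∈ Ioo a b ∧ f (g v) = v)
    (h2 : ∀ s ∈ Ioo a b, f s ∈ Ioo 0 S ∧ g (f s) = s) (φ k ω : ℝ → ℝ)
    (hω : ∀ s ∈ Ioo a b, |f' s| * φ s = ω s) (hc : ContinuousOn (fun s => ω s * k (f s)) (Icc a b)) :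
    IntegrableOn (fun v => φ (g v) * k v) (Ioo 0 S) ∧
      ∫ v in Ioo 0 S, φ (g v) * k v = ∫ s in a..b, ω s * k (f s) := by
  have him : Ioo 0 S = f '' Ioo a b :=
    Subset.antisymm (fun v hv => ⟨g v, h1 v hv⟩) (by rintro _ ⟨s, hs, rfl⟩; exact (h2 s hs).1)
  have hi : InjOn f (Ioo a b) := fun s hs t ht h => by rw [← (h2 s hs).2, h, (h2 t ht).2]
  have hd' := fun s hs => (hd s hs).hasDerivWithinAt (s := Ioo a b)
  have e : EqOn (fun s => |f' s| • (φ (g (f s)) * k (f s))) (fun s => ω s * k (f s)) (Ioo a b) :=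
    fun s hs => by simp only [(h2 s hs).2, smul_eq_mul, ← mul_assoc, hω s hs]
  rw [him, integrableOn_image_iff_integrableOn_abs_deriv_smul measurableSet_Ioo hd' hi,
    integral_image_eq_integral_abs_deriv_smul measurableSet_Ioo hd' hi,
    integrableOn_congr_fun e measurableSet_Ioo, setIntegral_congr_fun measurableSet_Ioo e,
    intervalIntegral.integral_of_le hab, integral_Ioc_eq_integral_Ioo]
  exact ⟨hc.integrableOn_Icc.mono_set Ioo_subset_Icc_self, rfl⟩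

noncomputable def G (n C x : ℝ) : ℝ := ∫ s in (0 : ℝ)..x, s * (1 - s) * mu n C s
noncomputable def uu (n C s : ℝ) : ℝ := G n C 1 - G n C s
noncomputable def du (n C s : ℝ) : ℝ := s * (s - 1) * mu n C s
noncomputable def rho (n k s : ℝ) : ℝ := Real.exp (k * L n s)
noncomputable def ph (n k s : ℝ) : ℝ := if k = 0 then L n s else (rho n k s - 1) / k
noncomputable def phi (n k a b c s : ℝ) : ℝ :=
  a * (rho n k s / s) + b * (rho n k s / (1 - s)) + c * ph n k s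
noncomputable def om (n C a b c s : ℝ) : ℝ :=
  mu n C s * (rho n (C - n) s * (a * (1 - s) + b * s) + c * (s * (1 - s)) * ph n (C - n) s)
noncomputable def II (n C t a b c H : ℝ) : ℝ :=
  ∫ s in (0 : ℝ)..t, om n C a b c s * √(H - uu n C s)

theorem ne2 {n s : ℝ} (h : 0 < 1 + n * s) : 1 + s * n ≠ 0 := by rw [mul_comm]; exact h.ne'
theorem mu_pos (n C s : ℝ) : 0 < mu n C s := Real.exp_pos _
theorem rho_pos (n k s : ℝ) : 0 < rho n k s := Real.exp_pos _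

theorem exp_L {n s : ℝ} (h : 0 < 1 + n * s) : Real.exp (n * L n s) = 1 + n * s := by
  unfold L
  split_ifs with hn
  · simp [hn]
  · rw [mul_div_cancel₀ _ hn, Real.exp_log h]

theorem hd_u (C : ℝ) {n s : ℝ} (h : 0 < 1 + n * s) : HasDerivAt (uu n C) (du n C s) s :=
  ((hd_G C h).const_sub (G n C 1)).congr_deriv (by unfold du; ring)

theorem hd_mu (C : ℝ) {n s : ℝ} (h : 0 < 1 + n * s) :
    HasDerivAt (mu n C) (-(2 * C + n) * mu n C s / (1 + n * s)) s := hd_E _ h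

theorem hd_rho (k : ℝ) {n s : ℝ} (h : 0 < 1 + n * s) :
    HasDerivAt (rho n k) (k * rho n k s / (1 + n * s)) s := hd_E _ h

theorem hd_ph (k : ℝ) {n s : ℝ} (h : 0 < 1 + n * s) :
    HasDerivAt (ph n k) (rho n k s / (1 + n * s)) s := by
  unfold ph
  split_ifs with hk
  · simpa [hk, rho] using hd_L h
  · refine (((hd_rho k h).sub_const 1).div_const k).congr_deriv ?_
    field_simp

theorem mul_ph (n k s : ℝ) : k * ph n k s = rho n k s - 1 := by
  unfold ph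
  split_ifs with hk
  · simp [hk, rho]
  · field_simp

theorem pos_le {n t s : ℝ} (h : 0 < 1 + n * t) (h0 : 0 ≤ s) (h1 : s ≤ t) : 0 < 1 + n * s :=
  pos_of_mem h (mem_uIcc.2 (Or.inl ⟨h0, h1⟩))

theorem mono_of {f f' : ℝ → ℝ} {a b : ℝ} (hab : a < b) (hc : ∀ s ∈ Icc a b, HasDerivAt f (f' s) s)
    (hp : ∀ s ∈ Ioo a b, 0 < f' s) : f a < f b := by
  obtain ⟨c, h1, h2⟩ := exists_hasDerivAt_eq_slope f f' hab
    (fun s hs => (hc s hs).continuousAt.continuousWithinAt) fun s hs => hc s (Ioo_subset_Icc_self hs)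
  have := hp c h1
  rw [h2, div_pos_iff_of_pos_right (sub_pos.2 hab)] at this
  linarith

theorem anti_of {f f' : ℝ → ℝ} {a b : ℝ} (hab : a < b) (hc : ∀ s ∈ Icc a b, HasDerivAt f (f' s) s)
    (hp : ∀ s ∈ Ioo a b, f' s < 0) : f b < f a :=
  neg_lt_neg_iff.1 (mono_of (f := fun s => -f s) hab (fun s hs => (hc s hs).neg)
    fun s hs => neg_pos.2 (hp s hs))

theorem du_neg (n C : ℝ) {s : ℝ} (h0 : 0 < s) (h1 : s < 1) : du n C s < 0 :=
  mul_neg_of_neg_of_pos (mul_neg_of_pos_of_neg h0 (sub_neg.2 h1)) (mu_pos n C s)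

theorem du_pos (n C : ℝ) {s : ℝ} (h1 : 1 < s) : 0 < du n C s :=
  mul_pos (mul_pos (one_pos.trans h1) (sub_pos.2 h1)) (mu_pos n C s)

theorem u_anti (C : ℝ) {n a b : ℝ} (h : 0 < 1 + n * 1) (h0 : 0 ≤ a) (hab : a < b) (h1 : b ≤ 1) :
    uu n C b < uu n C a :=
  anti_of hab (fun _ hs => hd_u C (pos_le h (h0.trans hs.1) (hs.2.trans h1)))
    fun _ hs => du_neg n C (h0.trans_lt hs.1) (hs.2.trans_le h1)

theorem u_mono (C : ℝ) {n a b : ℝ} (h : 0 < 1 + n * b) (h1 : 1 ≤ a) (hab : a < b) :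
    uu n C a < uu n C b :=
  mono_of hab (fun _ hs => hd_u C (pos_le h (zero_le_one.trans (h1.trans hs.1)) hs.2))
    fun _ hs => du_pos n C (h1.trans_lt hs.1)

theorem ph_mono (k : ℝ) {n a b : ℝ} (h : 0 < 1 + n * b) (h0 : 0 ≤ a) (hab : a < b) :
    ph n k a < ph n k b :=
  mono_of hab (fun _ hs => hd_ph k (pos_le h (h0.trans hs.1) hs.2))
    fun s hs => div_pos (rho_pos n k s) (pos_le h (h0.trans hs.1.le) hs.2.le)

theorem u_one (n C : ℝ) : uu n C 1 = 0 := sub_self _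
theorem u_zero (n C : ℝ) : uu n C 0 = G n C 1 := by simp [uu, G]

theorem oval_iff {n C x z : ℝ} : IsOval n C x z ↔
    0 ≤ x ∧ x < 1 ∧ 1 < z ∧ 0 < 1 + n * z ∧ uu n C x = uu n C z := by
  simp [IsOval, F, uu, G]

/-- The loop ends at `t`, and `X`, `Z` are the two branches of the inverse of the energy. -/
structure Setup (n C t S : ℝ) (X Z : ℝ → ℝ) : Prop where
  t1 : 1 < t
  lt : 0 < 1 + n * t
  u0 : uu n C 0 = S
  ut : uu n C t = S
  x1 : ∀ v ∈ Ioo 0 S, X v ∈ Ioo 0 1 ∧ uu n C (X v) = v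
  xd : ∀ v ∈ Ioo 0 S, HasDerivAt X (du n C (X v))⁻¹ v
  x2 : ∀ s ∈ Ioo 0 1, uu n C s ∈ Ioo 0 S ∧ X (uu n C s) = s
  z1 : ∀ v ∈ Ioo 0 S, Z v ∈ Ioo 1 t ∧ uu n C (Z v) = v
  zd : ∀ v ∈ Ioo 0 S, HasDerivAt Z (du n C (Z v))⁻¹ v
  z2 : ∀ s ∈ Ioo 1 t, uu n C s ∈ Ioo 0 S ∧ Z (uu n C s) = s

theorem setup_exists {n C t : ℝ} (h : IsOval n C 0 t) : ∃ S X Z, Setup n C t S X Z := by
  obtain ⟨-, -, t1, lt, e⟩ := oval_iff.1 h
  have l1 : 0 < 1 + n * 1 := pos_le lt zero_le_one t1.le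
  obtain ⟨Z, z1, z2⟩ := inv_exists (f := uu n C) (f' := du n C) t1
    (fun s hs => (hd_u C (pos_le lt (zero_le_one.trans hs.1) hs.2)).continuousAt.continuousWithinAt)
    (fun s hs => hd_u C (pos_le lt (zero_le_one.trans hs.1.le) hs.2.le))
    fun s hs => du_pos n C hs.1
  obtain ⟨g, x1, x2⟩ := inv_exists (f := fun s => -uu n C s) (f' := fun s => -du n C s) one_pos
    (fun s hs => (hd_u C (pos_le l1 hs.1 hs.2)).neg.continuousAt.continuousWithinAt)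
    (fun s hs => (hd_u C (pos_le l1 hs.1.le hs.2.le)).neg)
    fun s hs => neg_pos.2 (du_neg n C hs.1 hs.2)
  simp only [u_one, neg_zero, ← e] at z1 z2 x1 x2
  have m : ∀ v ∈ Ioo 0 (uu n C 0), -v ∈ Ioo (-uu n C 0) 0 := fun v hv =>
    ⟨neg_lt_neg hv.2, neg_neg_of_pos hv.1⟩
  refine ⟨uu n C 0, fun v => g (-v), Z, t1, lt, rfl, e.symm, fun v hv => ⟨(x1 _ (m v hv)).1,
    neg_injective (x1 _ (m v hv)).2.1⟩, fun v hv => ?_, fun s hs => ⟨⟨neg_neg_iff_pos.1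
      (x2 s hs).1.2, neg_lt_neg_iff.1 (x2 s hs).1.1⟩, (x2 s hs).2⟩,
    fun v hv => ⟨(z1 v hv).1, (z1 v hv).2.1⟩, fun v hv => (z1 v hv).2.2, z2⟩
  exact ((x1 _ (m v hv)).2.2.comp v (hasDerivAt_neg v)).congr_deriv (by simp)

variable {n C t S : ℝ} {X Z : ℝ → ℝ}

theorem Setup.l (h : Setup n C t S X Z) {s : ℝ} (hs : s ∈ Icc 0 t) : 0 < 1 + n * s :=
  pos_le h.lt hs.1 hs.2

theorem Setup.l1 (h : Setup n C t S X Z) : 0 < 1 + n * 1 := h.l ⟨zero_le_one, h.t1.le⟩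

theorem Setup.lx (h : Setup n C t S X Z) {v : ℝ} (hv : v ∈ Ioo 0 S) : 0 < 1 + n * X v :=
  pos_le h.l1 (h.x1 v hv).1.1.le (h.x1 v hv).1.2.le

theorem Setup.lz (h : Setup n C t S X Z) {v : ℝ} (hv : v ∈ Ioo 0 S) : 0 < 1 + n * Z v :=
  h.l ⟨zero_le_one.trans (h.z1 v hv).1.1.le, (h.z1 v hv).1.2.le⟩

theorem Setup.S_pos (h : Setup n C t S X Z) : 0 < S := by
  have := u_anti C h.l1 le_rfl one_pos le_rfl
  rwa [h.u0, u_one] at this

theorem Setup.x_anti (h : Setup n C t S X Z) {u v : ℝ} (hu : u ∈ Ioo 0 S) (hv : v ∈ Ioo 0 S)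
    (huv : u ≤ v) : X v ≤ X u := by
  by_contra h1
  have := u_anti C h.l1 (h.x1 u hu).1.1.le (not_le.1 h1) (h.x1 v hv).1.2.le
  rw [(h.x1 u hu).2, (h.x1 v hv).2] at this
  linarith

theorem Setup.z_mono (h : Setup n C t S X Z) {u v : ℝ} (hu : u ∈ Ioo 0 S) (hv : v ∈ Ioo 0 S)
    (huv : u ≤ v) : Z u ≤ Z v := by
  by_contra h1
  have := u_mono C (h.lz hu) (h.z1 v hv).1.1.le (not_le.1 h1)
  rw [(h.z1 u hu).2, (h.z1 v hv).2] at this
  linarith

theorem Setup.k_lt (h : Setup n C t S X Z) : C - n < 1 := by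
  by_contra hk
  have h1 : ∀ s ∈ Icc 0 t, HasDerivAt (fun s => -uu n C s - s ^ 2 * (1 + n * s) * mu n C s / 2)
      (s ^ 2 * (C - n - 1) * mu n C s) s := fun s hs => by
    refine ((hd_u C (h.l hs)).neg.sub ((((hasDerivAt_pow 2 s).mul
      (((hasDerivAt_id' s).const_mul n).const_add 1)).mul (hd_mu C (h.l hs))).div_const
        2)).congr_deriv ?_
    have := (h.l hs).ne'
    have := ne2 (h.l hs)
    unfold du
    simp only [Pi.mul_apply]
    field_simp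
    ring
  obtain ⟨c, -, h3⟩ := exists_hasDerivAt_eq_slope _ _ (one_pos.trans h.t1)
    (fun s hs => (h1 s hs).continuousAt.continuousWithinAt) fun s hs => h1 s (Ioo_subset_Icc_self hs)
  have h4 : 0 ≤ c ^ 2 * (C - n - 1) * mu n C c :=
    mul_nonneg (mul_nonneg (sq_nonneg c) (by linarith)) (mu_pos n C c).le
  have h5 : 0 < t := one_pos.trans h.t1
  have h6 : 0 < t ^ 2 * (1 + n * t) * mu n C t := by have := h.lt; have := mu_pos n C t; positivity
  rw [h3, h.u0, h.ut, le_div_iff₀ (by linarith)] at h4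
  linarith

theorem Setup.om_cont (h : Setup n C t S X Z) (a b c : ℝ) :
    ContinuousOn (om n C a b c) (Icc 0 t) := fun s hs => by
  have h1 := (hd_mu C (h.l hs)).continuousAt
  have h2 := (hd_rho (C - n) (h.l hs)).continuousAt
  have h3 := (hd_ph (C - n) (h.l hs)).continuousAt
  refine ContinuousAt.continuousWithinAt ?_
  unfold om
  fun_prop

theorem Setup.u_cont (h : Setup n C t S X Z) : ContinuousOn (uu n C) (Icc 0 t) := fun _ hs =>
  (hd_u C (h.l hs)).continuousAt.continuousWithinAt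

/-- The difference of `phi` at the two ends of the oval of energy `v`. -/
noncomputable def QQ (n k a b c : ℝ) (X Z : ℝ → ℝ) (v : ℝ) : ℝ :=
  phi n k a b c (X v) - phi n k a b c (Z v)

theorem Setup.II_eq (h : Setup n C t S X Z) (a b c H : ℝ) :
    IntegrableOn (fun v => QQ n (C - n) a b c X Z v * √(H - v)) (Ioo 0 S) ∧
      ∫ v in Ioo 0 S, QQ n (C - n) a b c X Z v * √(H - v) = II n C t a b c H := by
  have hc : ContinuousOn (fun s => om n C a b c s * √(H - uu n C s)) (Icc 0 t) :=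
    (h.om_cont a b c).mul ((continuousOn_const.sub h.u_cont).sqrt)
  have c1 := hc.mono (Icc_subset_Icc_right h.t1.le)
  have c2 := hc.mono (Icc_subset_Icc_left zero_le_one)
  obtain ⟨i1, e1⟩ := cov zero_le_one (fun s hs => hd_u C (pos_le h.l1 hs.1.le hs.2.le)) h.x1 h.x2
    (phi n (C - n) a b c) (fun v => √(H - v)) (om n C a b c) (fun s hs => by
      have := hs.1.ne'
      have := (sub_pos.2 hs.2).ne'
      rw [abs_of_neg (du_neg n C hs.1 hs.2)]
      unfold du phi om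
      field_simp
      ring) c1
  obtain ⟨i2, e2⟩ := cov h.t1.le
    (fun s hs => hd_u C (h.l ⟨zero_le_one.trans hs.1.le, hs.2.le⟩)) h.z1 h.z2
    (fun s => -phi n (C - n) a b c s) (fun v => √(H - v)) (om n C a b c) (fun s hs => by
      have := (one_pos.trans hs.1).ne'
      have := (sub_neg.2 hs.1).ne
      rw [abs_of_pos (du_pos n C hs.1)]
      unfold du phi om
      field_simp
      ring) c2
  simp only [QQ, sub_eq_add_neg (phi _ _ _ _ _ _), add_mul]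
  refine ⟨i1.add i2, ?_⟩
  rw [integral_add i1 i2, e1, e2]
  exact intervalIntegral.integral_add_adjacent_intervals
    (c1.intervalIntegrable_of_Icc zero_le_one) (c2.intervalIntegrable_of_Icc h.t1.le)

end Pool.Agent.Lib.MP_bf91d6_an.Mel
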