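import Mathlib

set_option autoImplicit false

namespace Pool.Agent.Lib.MP_bf91d6_an.Mel

theorem cert_c (N y Z l a b D : ℝ) (hN : 0 < N) (hy : 0 ≤ y) (hZ : 0 < Z) (hl0 : 0 < l)
    (ha : 0 ≤ a) (hb : 0 ≤ b) (ea : a = 1 - 3 * N) (eb : b = 2 - 3 * y)
    (el : l = N + (N - 1) * Z) (hD : D * (1 - y) ^ 2 = (1 - (N + y)) * y * (1 - 3 * N)) :
    (3 * (N + y) - D) * l * Z ≤
      (-D * (1 + Z) ^ 2 * Z + (1 + Z) * Z + N * (1 + Z) ^ 2) * (l + (1 - (N + y)) * Z) := by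
  have h1 : 0 < 1 - y := by linarith
  have key : ((-D * (1 + Z) ^ 2 * Z + (1 + Z) * Z + N * (1 + Z) ^ 2) * (l + (1 - (N + y)) * Z)
      - (3 * (N + y) - D) * l * Z) * ((1 - y) ^ 2 * N ^ 2) =
      (1/4*a^3*b^3 + 1/2*a^3*y*b^2 + 1/4*a^3*y^2*b + 7/4*N*a^2*b^3 + 15/4*N*a^2*y*b^2 + 13/4*N*a^2*y^2*b + 5/4*N*a^2*y^3 + 4*N^2*a*b^3 + 17/2*N^2*a*y*b^2 + 7*N^2*a*y^2*b + 3/2*N^2*a*y^3 + 3*N^3*b^3 + 6*N^3*y*b^2 + 3*N^3*y^2*b)*l^0*Z^4 +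
      (7/8*a^4*b^3 + 15/8*a^4*y*b^2 + 9/8*a^4*y^2*b + 1/8*a^4*y^3 + 71/8*N*a^3*b^3 + 149/8*N*a^3*y*b^2 + 93/8*N*a^3*y^2*b + 15/8*N*a^3*y^3 + 135/4*N^2*a^2*b^3 + 70*N^2*a^2*y*b^2 + 181/4*N^2*a^2*y^2*b + 9*N^2*a^2*y^3 + 57*N^3*a*b^3 + 467/4*N^3*a*y*b^2 + 72*N^3*a*y^2*b + 45/4*N^3*a*y^3 + 36*N^4*b^3 + 72*N^4*y*b^2 + 36*N^4*y^2*b)*l^1*Z^3 +
      (9/8*a^3*b^3 + 23/8*a^3*y*b^2 + 19/8*a^3*y^2*b + 5/8*a^3*y^3 + 67/8*N*a^2*b^3 + 157/8*N*a^2*y*b^2 + 113/8*N*a^2*y^2*b + 23/8*N*a^2*y^3 + 83/4*N^2*a*b^3 + 179/4*N^2*a*y*b^2 + 113/4*N^2*a*y^2*b + 21/4*N^2*a*y^3 + 69/4*N^3*b^3 + 69/2*N^3*y*b^2 + 69/4*N^3*y^2*b)*l^2*Z^2 +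
      (5/8*a*b^3 + 17/8*a*y*b^2 + 19/8*a*y^2*b + 7/8*a*y^3 + 5/4*N*b^3 + 13/4*N*y*b^2 + 11/4*N*y^2*b + 3/4*N*y^3)*l^3*Z^1 +
      (1/4*b^2 + 1/2*y*b + 1/4*y^2)*l^4*Z^0 := by
    subst ea eb el
    linear_combination (-((1 + Z) ^ 2 * Z * (N + (N - 1) * Z + (1 - (N + y)) * Z)) * N ^ 2 +
      (N + (N - 1) * Z) * Z * N ^ 2) * hD
  have hp : 0 < (1 - y) ^ 2 * N ^ 2 := by positivity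
  have h0 : 0 ≤ ((-D * (1 + Z) ^ 2 * Z + (1 + Z) * Z + N * (1 + Z) ^ 2) *
      (l + (1 - (N + y)) * Z) - (3 * (N + y) - D) * l * Z) * ((1 - y) ^ 2 * N ^ 2) := by
    rw [key]; positivity
  have := nonneg_of_mul_nonneg_left h0 hp
  linarith

theorem cert_b (N y Z l a b D : ℝ) (hN : 0 < N) (hy : 0 ≤ y) (hZ : 0 < Z) (hl0 : 0 < l)
    (ha : 0 ≤ a) (hb : 0 ≤ b) (ea : a = 1 - 3 * N) (eb : b = 2 - 3 * y)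
    (el : l = N + (N - 1) * Z) (hD : D * (1 - y) ^ 2 = (1 - (N + y)) * y * (1 - 3 * N)) :
    2 * (3 * (N + y) - D) * l * Z ≤
      ((2 * (N + y) - 2 * D) * (1 + Z) * Z + 3 * N * (1 + Z)) * (l + (1 - (N + y)) * Z) := by
  have h1 : 0 < 1 - y := by linarith
  have key : (((2 * (N + y) - 2 * D) * (1 + Z) * Z + 3 * N * (1 + Z)) * (l + (1 - (N + y)) * Z)
      - 2 * (3 * (N + y) - D) * l * Z) * ((1 - y) ^ 2 * N) =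
      (3/16*a^3*b^4 + 9/8*a^3*y*b^3 + 7/4*a^3*y^2*b^2 + 7/8*a^3*y^3*b + 1/16*a^3*y^4 + 23/16*N*a^2*b^4 + 37/4*N*a^2*y*b^3 + 135/8*N*a^2*y^2*b^2 + 55/4*N*a^2*y^3*b + 75/16*N*a^2*y^4 + 29/8*N^2*a*b^4 + 191/8*N^2*a*y*b^3 + 341/8*N^2*a*y^2*b^2 + 249/8*N^2*a*y^3*b + 27/4*N^2*a*y^4 + 3*N^3*b^4 + 39/2*N^3*y*b^3 + 30*N^3*y^2*b^2 + 27/2*N^3*y^3*b)*l^0*Z^3 +
      (9/16*a^2*b^4 + 13/4*a^2*y*b^3 + 45/8*a^2*y^2*b^2 + 15/4*a^2*y^3*b + 13/16*a^2*y^4 + 5/2*N*a*b^4 + 113/8*N*a*y*b^3 + 185/8*N*a*y^2*b^2 + 119/8*N*a*y^3*b + 27/8*N*a*y^4 + 23/8*N^2*b^4 + 127/8*N^2*y*b^3 + 185/8*N^2*y^2*b^2 + 81/8*N^2*y^3*b)*l^1*Z^2 +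
      (9/8*a*b^3 + 31/8*a*y*b^2 + 35/8*a*y^2*b + 13/8*a*y^3 + 17/8*N*b^3 + 43/8*N*y*b^2 + 35/8*N*y^2*b + 9/8*N*y^3)*l^2*Z^1 +
      (3/4*b^2 + 3/2*y*b + 3/4*y^2)*l^3*Z^0 := by
    subst ea eb el
    linear_combination (-(2 * (1 + Z) * Z * (N + (N - 1) * Z + (1 - (N + y)) * Z)) * N +
      2 * (N + (N - 1) * Z) * Z * N) * hD
  have hp : 0 < (1 - y) ^ 2 * N := by positivity
  have h0 : 0 ≤ (((2 * (N + y) - 2 * D) * (1 + Z) * Z + 3 * N * (1 + Z)) *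
      (l + (1 - (N + y)) * Z) - 2 * (3 * (N + y) - D) * l * Z) * ((1 - y) ^ 2 * N) := by
    rw [key]; positivity
  have := nonneg_of_mul_nonneg_left h0 hp
  linarith

end Pool.Agent.Lib.MP_bf91d6_an.Mel
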