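import Pool.Agent.Lib.MP_bf91d6_an.Defs

set_option autoImplicit false

namespace Pool.Agent.Lib.MP_bf91d6_an.Mel

open Set MeasureTheory

/-- The primitive of `1 / (1 + n x)` vanishing at `0`. -/
noncomputable def L (n x : ℝ) : ℝ := if n = 0 then x else Real.log (1 + n * x) / n

/-- The integrating factor, on `1 + n x > 0`, of the reversible quadratic system
`x' = y (1 + n x)`, `y' = x - x ^ 2 + C y ^ 2` (saddle at `(0, 0)`, centre at `(1, 0)`);
it equals `(1 + n x) ^ (-(2 C + n) / n)` if `n ≠ 0` and `exp (-2 C x)` if `n = 0`. -/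
noncomputable def mu (n C x : ℝ) : ℝ := Real.exp (-(2 * C + n) * L n x)

/-- The first integral `F` of that system with `F_y = mu x'`, `F_x = - mu y'`, `F (0, 0) = 0`
(see `F_snd` and `F_fst` below). -/
noncomputable def F (n C : ℝ) (p : ℝ × ℝ) : ℝ :=
  p.2 ^ 2 * (1 + n * p.1) * mu n C p.1 / 2 - ∫ s in (0 : ℝ)..p.1, s * (1 - s) * mu n C s

/-- The level curve of `F` through `(x, 0)`, `0 ≤ x < 1`, closes up round the centre at `(z, 0)`:
a periodic orbit if `x > 0`, the homoclinic loop of the saddle if `x = 0`. -/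
def IsOval (n C x z : ℝ) : Prop :=
  0 ≤ x ∧ x < 1 ∧ 1 < z ∧ 0 < 1 + n * z ∧ F n C (x, 0) = F n C (z, 0)

/-- The domain bounded by the oval through `(x, 0)` and `(z, 0)`. -/
def inside (n C x z : ℝ) : Set (ℝ × ℝ) := {p | x < p.1 ∧ p.1 < z ∧ F n C p < F n C (x, 0)}

/-- The first Melnikov integral of the perturbation `(P, Q) = field c` on the oval: the integral
of the divergence of `mu (P, Q)` over the domain bounded by the oval. -/
noncomputable def melnikov (n C : ℝ) (c : Fin 12 → ℝ) (x z : ℝ) : ℝ :=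
  ∫ p in inside n C x z, (deriv (fun s => mu n C s * (field c (s, p.2)).1) p.1 +
    deriv (fun t => mu n C p.1 * (field c (p.1, t)).2) p.2)

theorem hd_L {n x : ℝ} (h : 0 < 1 + n * x) : HasDerivAt (L n) (1 / (1 + n * x)) x := by
  unfold L
  split_ifs with hn
  · subst hn
    simpa using hasDerivAt_id' x
  · refine (((((hasDerivAt_id' x).const_mul n).const_add 1).log h.ne').div_const n).congr_deriv ?_
    field_simp

theorem hd_E (a : ℝ) {n x : ℝ} (h : 0 < 1 + n * x) : HasDerivAt (fun s => Real.exp (a * L n s))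
    (a * Real.exp (a * L n x) / (1 + n * x)) x :=
  ((hd_L h).const_mul a).exp.congr_deriv (by ring)

theorem pos_of_mem {n x s : ℝ} (h : 0 < 1 + n * x) (hs : s ∈ uIcc 0 x) : 0 < 1 + n * s := by
  rcases mem_uIcc.1 hs with ⟨h1, h2⟩ | ⟨h1, h2⟩ <;> rcases le_total 0 n with h3 | h3 <;> nlinarith

theorem hd_G (C : ℝ) {n x : ℝ} (h : 0 < 1 + n * x) :
    HasDerivAt (fun x => ∫ s in (0 : ℝ)..x, s * (1 - s) * mu n C s) (x * (1 - x) * mu n C x) x := by
  have hc : ∀ s, 0 < 1 + n * s → ContinuousAt (fun s => s * (1 - s) * mu n C s) s := fun s hs =>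
    (by fun_prop : ContinuousAt (fun s : ℝ => s * (1 - s)) s).mul (hd_E _ hs).continuousAt
  have ho : IsOpen {s : ℝ | 0 < 1 + n * s} := isOpen_lt (by fun_prop) (by fun_prop)
  exact intervalIntegral.integral_hasDerivAt_right
    (ContinuousOn.intervalIntegrable fun s hs => (hc s (pos_of_mem h hs)).continuousWithinAt)
    (ContinuousAt.stronglyMeasurableAtFilter ho hc x h) (hc x h)

theorem F_snd (n C x y : ℝ) :
    HasDerivAt (fun t => F n C (x, t)) (mu n C x * (y * (1 + n * x))) y := by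
  refine (((((hasDerivAt_pow 2 y).mul_const (1 + n * x)).mul_const (mu n C x)).div_const
    2).sub_const (∫ s in (0 : ℝ)..x, s * (1 - s) * mu n C s)).congr_deriv ?_
  simp
  ring

theorem F_fst {n x : ℝ} (C y : ℝ) (h : 0 < 1 + n * x) :
    HasDerivAt (fun s => F n C (s, y)) (-(mu n C x * (x - x ^ 2 + C * y ^ 2))) x := by
  refine ((((((hasDerivAt_id' x).const_mul n).const_add 1).const_mul (y ^ 2)).mul
    (hd_E (-(2 * C + n)) h)).div_const 2 |>.sub (hd_G C h)).congr_deriv ?_
  unfold mu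
  field_simp
  ring

end Pool.Agent.Lib.MP_bf91d6_an.Mel
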