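import Pool.Agent.Lib.MP_bf91d6_an.Mel.Calc
import Pool.Agent.Lib.MP_bf91d6_an.Mel.Alg

set_option autoImplicit false

namespace Pool.Agent.Lib.MP_bf91d6_an.Mel

open Set MeasureTheory Filter Topology

noncomputable def EE (n k s : ℝ) : ℝ := Real.exp ((3 * k + 2 * n) * L n s)
noncomputable def psi (n k a b c s : ℝ) : ℝ :=
  (-(a * hA n k s) + b * hB n k s + c) * EE n k s / (s * (s - 1))
noncomputable def r0 (n k s : ℝ) : ℝ := (1 + (1 + n - k) * s) * EE n k s / s ^ 3
noncomputable def phi0 (n k s : ℝ) : ℝ := rho n k s / s + (1 + n - k) * ph n k s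

theorem EE_pos (n k s : ℝ) : 0 < EE n k s := Real.exp_pos _

theorem rho_eq {n s : ℝ} (C : ℝ) (h : 0 < 1 + n * s) :
    rho n (C - n) s = EE n (C - n) s * (1 + n * s) * mu n C s := by
  rw [← exp_L h, EE, mu, rho, ← Real.exp_add, ← Real.exp_add]
  congr 1
  ring

theorem hd_phi {n s : ℝ} (C a b c : ℝ) (h : 0 < 1 + n * s) (h0 : s ≠ 0) (h1 : 1 - s ≠ 0) :
    HasDerivAt (phi n (C - n) a b c) (psi n (C - n) a b c s * du n C s) s := by
  refine (((((hd_rho _ h).fun_div (hasDerivAt_id' s) h0).const_mul a).add (((hd_rho _ h).fun_div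
    ((hasDerivAt_id' s).const_sub 1) h1).const_mul b)).add
      ((hd_ph _ h).const_mul c)).congr_deriv ?_
  have := h.ne'
  have := ne2 h
  have e : s - 1 = -(1 - s) := by ring
  rw [rho_eq C h]
  unfold psi du hA hB
  rw [e]
  field_simp
  ring

theorem hd_psi {n s : ℝ} (k b c : ℝ) (h : 0 < 1 + n * s) (h0 : s ≠ 0) (h1 : 1 - s ≠ 0) :
    HasDerivAt (psi n k 1 b c) (TT n k b c s * EE n k s / (s * (s - 1))) s := by
  have l := ((hasDerivAt_id' s).const_mul n).const_add 1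
  have x := (hasDerivAt_id' s).const_sub 1
  have e : s - 1 = -(1 - s) := by ring
  have a1 : HasDerivAt (hA n k) (dA n k s) s := by
    refine ((l.fun_div (hasDerivAt_pow 2 s) (pow_ne_zero 2 h0)).sub
      ((hasDerivAt_const s k).fun_div (hasDerivAt_id' s) h0)).congr_deriv ?_
    unfold dA
    push_cast
    field_simp
    ring
  have a2 : HasDerivAt (hB n k) (dB n k s) s := by
    refine ((l.fun_div (x.fun_pow 2) (pow_ne_zero 2 h1)).add
      ((hasDerivAt_const s k).fun_div x h1)).congr_deriv ?_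
    unfold dB
    push_cast
    field_simp
    ring
  refine ((((((a1.const_mul 1).fun_neg).fun_add (a2.const_mul b)).add_const c).fun_mul
    (hd_E (3 * k + 2 * n) h)).fun_div ((hasDerivAt_id' s).fun_mul ((hasDerivAt_id' s).sub_const 1))
      (mul_ne_zero h0 (e ▸ neg_ne_zero.2 h1))).congr_deriv ?_
  have := h.ne'
  have := ne2 h
  unfold TT gam hh EE
  rw [e]
  field_simp
  ring

theorem hd_phi0 {n s : ℝ} (C : ℝ) (h : 0 < 1 + n * s) (h0 : s ≠ 0) :
    HasDerivAt (phi0 n (C - n)) (r0 n (C - n) s * du n C s) s := by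
  refine (((hd_rho _ h).fun_div (hasDerivAt_id' s) h0).add
      ((hd_ph _ h).const_mul _)).congr_deriv ?_
  have := h.ne'
  have := ne2 h
  rw [rho_eq C h]
  unfold r0 du
  field_simp
  ring

theorem hd_r0 {n s : ℝ} (k : ℝ) (h : 0 < 1 + n * s) (h0 : s ≠ 0) :
    HasDerivAt (r0 n k) (EE n k s * Nn n k s / (s ^ 4 * (1 + n * s))) s := by
  refine ((((((hasDerivAt_id' s).const_mul (1 + n - k)).const_add 1).fun_mul
    (hd_E (3 * k + 2 * n) h))).fun_div (hasDerivAt_pow 3 s) (pow_ne_zero 3 h0)).congr_deriv ?_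
  have := h.ne'
  have := ne2 h
  unfold EE Nn
  push_cast
  field_simp
  ring

theorem E_anti {n C x z : ℝ} {Ξ J : ℝ → ℝ} (h0 : 0 < x) (h1 : x < 1) (h2 : 1 < z)
    (hl : 0 < 1 + n * z) (e : uu n C x = uu n C z)
    (hd : ∀ s ∈ Icc x z, HasDerivAt Ξ (J s * du n C s) s) (j1 : ∀ s ∈ Ioo x 1, J 1 < J s)
    (j2 : ∀ s ∈ Ioo 1 z, J s < J 1) : Ξ z < Ξ x := by
  have hd' : ∀ s ∈ Icc x z, HasDerivAt (fun s => Ξ s - J 1 * uu n C s)
      ((J s - J 1) * du n C s) s := fun s hs =>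
    ((hd s hs).sub ((hd_u C (pos_le hl (h0.le.trans hs.1) hs.2)).const_mul _)).congr_deriv (by ring)
  have a1 := anti_of h1 (fun s hs => hd' s ⟨hs.1, hs.2.trans h2.le⟩) fun s hs =>
    mul_neg_of_pos_of_neg (sub_pos.2 (j1 s hs)) (du_neg n C (h0.trans hs.1) hs.2)
  have a2 := anti_of h2 (fun s hs => hd' s ⟨h1.le.trans hs.1, hs.2⟩) fun s hs =>
    mul_neg_of_neg_of_pos (sub_neg.2 (j2 s hs)) (du_pos n C hs.1)
  rw [e] at a1
  linarith

theorem E_anti' {n C x z : ℝ} {Ξ J J' : ℝ → ℝ} (h0 : 0 < x) (h1 : x < 1) (h2 : 1 < z)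
    (hl : 0 < 1 + n * z) (e : uu n C x = uu n C z)
    (hd : ∀ s ∈ Icc x z, HasDerivAt Ξ (J s * du n C s) s)
    (hj : ∀ s ∈ Icc x z, HasDerivAt J (J' s) s) (hn : ∀ s ∈ Icc x z, s ≠ 1 → J' s < 0) :
    Ξ z < Ξ x :=
  E_anti h0 h1 h2 hl e hd
    (fun _ hs => anti_of hs.2 (fun r hr => hj r ⟨hs.1.le.trans hr.1, hr.2.trans h2.le⟩)
      fun r hr => hn r ⟨(hs.1.trans hr.1).le, (hr.2.trans h2).le⟩ hr.2.ne)
    fun _ hs => anti_of hs.1 (fun r hr => hj r ⟨h1.le.trans hr.1, hr.2.trans hs.2.le⟩)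
      fun r hr => hn r ⟨(h1.trans hr.1).le, (hr.2.trans hs.2).le⟩ hr.1.ne'

theorem phi0_lt {n C x z : ℝ} (hk : C - n < 1) (h3 : 3 * (C - n) ≤ 3 * n + 5) (h0 : 0 < x)
    (h1 : x < 1) (h2 : 1 < z) (hl : 0 < 1 + n * z) (e : uu n C x = uu n C z) :
    phi0 n (C - n) z < phi0 n (C - n) x := by
  have hn : -1 < n := by linarith [pos_le hl zero_le_one h2.le]
  have p : ∀ s ∈ Icc x z, 0 < s := fun s hs => h0.trans_le hs.1
  have l : ∀ s ∈ Icc x z, 0 < 1 + n * s := fun s hs => pos_le hl (p s hs).le hs.2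
  rcases le_or_gt (C - n) 0 with k0 | k0
  · refine E_anti' h0 h1 h2 hl e (fun s hs => hd_phi0 C (l s hs) (p s hs).ne')
      (fun s hs => hd_r0 _ (l s hs) (p s hs).ne') fun s hs _ => div_neg_of_neg_of_pos
        (mul_neg_of_pos_of_neg (EE_pos _ _ _) (Nn_neg hn k0 (p s hs) (l s hs))) ?_
    have := p s hs
    have := l s hs
    positivity
  obtain ⟨t, H⟩ := th_exists hn k0 hk h3
  have re := fun s (hs : s ∈ Icc x z) => rho_eq C (l s hs)
  generalize ek : C - n = k at *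
  have W : ∀ s ∈ Icc x z, 0 < k + (1 + n - k) * s := fun s hs => by
    have := l s hs
    rcases le_total s 1 with h | h
    · nlinarith [p s hs, mul_nonneg k0.le (sub_nonneg.2 h)]
    · nlinarith [mul_nonneg (sub_nonneg.2 hk.le) (sub_nonneg.2 h)]
  obtain ⟨w, ew⟩ : ∃ w : ℝ → ℝ, w = fun s => k * L n s + Real.log (k + (1 + n - k) * s) -
    Real.log s := ⟨_, rfl⟩
  have hw : ∀ s ∈ Icc x z, HasDerivAt w (k * (s - 1) * (1 + (1 + n - k) * s) /
      (s * (1 + n * s) * (k + (1 + n - k) * s))) s := fun s hs => by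
    rw [ew]
    refine ((((hd_L (l s hs)).const_mul k).add ((((hasDerivAt_id' s).const_mul _).const_add k).log
      (W s hs).ne')).sub (Real.hasDerivAt_log (p s hs).ne')).congr_deriv ?_
    have := (l s hs).ne'
    have := (p s hs).ne'
    have := (W s hs).ne'
    generalize hW : k + (1 + n - k) * s = W at *
    generalize hL : 1 + n * s = l at *
    field_simp
    rw [← hW, ← hL]
    ring
  have ew2 : ∀ s ∈ Icc x z, Real.exp (w s) = rho n k s * (k + (1 + n - k) * s) / s := fun s hs => by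
    rw [ew, Real.exp_sub, Real.exp_add, Real.exp_log (W s hs), Real.exp_log (p s hs), rho]
  have hc : Continuous fun τ => Real.exp ((1 - t / k) * τ) := by fun_prop
  have a := E_anti' (Ξ := fun s => ∫ τ in (0 : ℝ)..w s, Real.exp ((1 - t / k) * τ))
    (J := fun s => k * r0 n k s * Real.exp (-(t / k) * w s))
    (J' := fun s => -(k * Real.exp (-(t / k) * w s) * EE n k s * PT n k t s /
      (s ^ 4 * (1 + n * s) * (k + (1 + n - k) * s)))) h0 h1 h2 hl e (fun s hs => ?_)
    (fun s hs => ?_) fun s hs hs1 => ?_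
  · have a2 : w z < w x := by
      by_contra h
      have := intervalIntegral.integral_nonneg (μ := volume) (not_lt.1 h)
        (f := fun τ => Real.exp ((1 - t / k) * τ)) fun τ _ => (Real.exp_pos _).le
      rw [← intervalIntegral.integral_interval_sub_left (hc.intervalIntegrable 0 _)
        (hc.intervalIntegrable 0 _)] at this
      linarith
    have a3 := Real.exp_lt_exp.2 a2
    rw [ew2 z ⟨by linarith, le_rfl⟩, ew2 x ⟨le_rfl, by linarith⟩] at a3
    have a4 : ∀ s, 0 < s → k * phi0 n k s =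
        rho n k s * (k + (1 + n - k) * s) / s - (1 + n - k) := fun s hs => by
      have := mul_ph n k s
      unfold phi0
      field_simp
      linear_combination (1 + n - k) * s * this
    refine lt_of_mul_lt_mul_left ?_ k0.le
    rw [a4 z (by linarith), a4 x h0]
    linarith
  · refine (((hc.integral_hasStrictDerivAt 0 (w s)).hasDerivAt).comp s (hw s hs)).congr_deriv ?_
    rw [show (1 - t / k) * w s = w s + -(t / k) * w s by ring, Real.exp_add, ew2 s hs, re s hs]
    have := (l s hs).ne'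
    have := (p s hs).ne'
    have := (W s hs).ne'
    unfold r0 du
    generalize k + (1 + n - k) * s = W at *
    generalize 1 + n * s = l at *
    field_simp
  · refine (((hd_r0 k (l s hs) (p s hs).ne').const_mul k).fun_mul
      ((hw s hs).const_mul (-(t / k))).exp).congr_deriv ?_
    have := (l s hs).ne'
    have := (p s hs).ne'
    have := (W s hs).ne'
    unfold r0 PT
    generalize k + (1 + n - k) * s = W at *
    generalize 1 + n * s = l at *
    field_simp
    ring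
  · have := H.P s (p s hs) hs1 (l s hs)
    have := l s hs
    have := p s hs
    have := W s hs
    have := EE_pos n k s
    rw [neg_lt_zero]
    positivity

theorem not_max {Q Q' : ℝ → ℝ} {p d : ℝ} (h : ∀ᶠ v in 𝓝 p, HasDerivAt Q (Q' v) v)
    (h0 : Q' p = 0) (h1 : HasDerivAt Q' d p) (hd : 0 < d) : ¬IsLocalMax Q p := fun hm => by
  have e : deriv Q =ᶠ[𝓝 p] Q' := h.mono fun v hv => hv.deriv
  have e2 : deriv (deriv Q) p = d := by rw [e.deriv_eq, h1.deriv]
  have h2 := isLocalMin_of_deriv_deriv_pos (e2 ▸ hd) (e.eq_of_nhds.trans h0)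
    h.self_of_nhds.continuousAt
  have e3 : Q =ᶠ[𝓝 p] fun _ => Q p := (hm.and h2).mono fun v hv => le_antisymm hv.1 hv.2
  rw [e3.deriv.deriv_eq] at e2
  simp at e2
  linarith

theorem qc_of {R : ℝ → ℝ} {S : ℝ} (hc : ContinuousOn R (Ioo 0 S))
    (h : ∀ p ∈ Ioo 0 S, ¬IsLocalMax R p) (s u v : ℝ) (h0 : 0 < s) (h1 : s < u) (h2 : u < v)
    (h3 : v < S) : R u < max (R s) (R v) := by
  by_contra h4
  rw [not_lt, max_le_iff] at h4
  obtain ⟨p, hp, hm⟩ := isCompact_Icc.exists_isMaxOn (nonempty_Icc.2 (h1.trans h2).le)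
    (hc.mono (Icc_subset_Ioo h0 h3))
  rcases le_or_gt (R p) (R u) with h5 | h5
  · exact h u ⟨h0.trans h1, h2.trans h3⟩ (IsMaxOn.isLocalMax (fun y hy => (hm hy).trans h5)
      (Icc_mem_nhds h1 h2))
  · exact h p ⟨h0.trans_le hp.1, hp.2.trans_lt h3⟩ (hm.isLocalMax (Icc_mem_nhds
      (hp.1.lt_of_ne (by rintro rfl; linarith [h4.1])) (hp.2.lt_of_ne (by rintro rfl; linarith [h4.2]))))

end Pool.Agent.Lib.MP_bf91d6_an.Mel
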