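import Pool.Agent.Lib.MP_bf91d6_an.Mel.Up

set_option autoImplicit false

namespace Pool.Agent.Lib.MP_bf91d6_an.Mel

open Set MeasureTheory Filter Topology

variable {n C t S : ℝ} {X Z : ℝ → ℝ}

theorem Setup.II_cont (h : Setup n C t S X Z) (a b c : ℝ) : Continuous (II n C t a b c) := by
  have ht : 0 ≤ t := zero_le_one.trans h.t1.le
  have hp : Continuous fun s : ℝ => max 0 (min s t) := by fun_prop
  have hm : ∀ s : ℝ, max 0 (min s t) ∈ Icc 0 t := fun s =>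
    ⟨le_max_left _ _, max_le ht (min_le_right _ _)⟩
  have c1 := (h.om_cont a b c).comp_continuous hp hm
  have c2 := h.u_cont.comp_continuous hp hm
  have := intervalIntegral.continuous_parametric_intervalIntegral_of_continuous' (μ := volume)
    (f := fun (H s : ℝ) => om n C a b c (max 0 (min s t)) * √(H - uu n C (max 0 (min s t))))
    ((c1.comp continuous_snd).mul (continuous_fst.sub (c2.comp continuous_snd)).sqrt) 0 t
  refine this.congr fun H => intervalIntegral.integral_congr fun s hs => ?_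
  rw [uIcc_of_le ht] at hs
  simp only [min_eq_left hs.2, max_eq_right hs.1]

theorem Setup.II_lin (h : Setup n C t S X Z) (a b c H : ℝ) : II n C t a b c H =
    a * II n C t 1 0 0 H - c * -II n C t 0 0 1 H + b * II n C t 0 1 0 H := by
  rw [mul_neg, ← neg_mul, ← (h.II_eq a b c H).2, ← (h.II_eq 1 0 0 H).2, ← (h.II_eq 0 1 0 H).2,
    ← (h.II_eq 0 0 1 H).2, ← (lin3 (h.II_eq 1 0 0 H).1 (h.II_eq 0 0 1 H).1 (h.II_eq 0 1 0 H).1 a
      (-c) b).2]
  congr 1
  funext v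
  unfold QQ phi
  ring

theorem Setup.II_pos (h : Setup n C t S X Z) {a b c H : ℝ} (h0 : 0 < H) (hS : H ≤ S)
    (hp : ∀ v ∈ Ioo 0 H, 0 < QQ n (C - n) a b c X Z v) : 0 < II n C t a b c H := by
  have h1 : ∀ u ∈ Ioo 0 H, 0 < QQ n (C - n) a b c X Z u * √(H - u) := fun u hu =>
    mul_pos (hp u hu) (Real.sqrt_pos.2 (sub_pos.2 hu.2))
  rw [← (h.II_eq a b c H).2]
  refine pos_int 0 0 (h.II_eq a b c H).1 (fun u hu _ _ => ?_) le_rfl h0 hS h1
  rcases lt_or_ge u H with h2 | h2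
  · exact (h1 u ⟨hu.1, h2⟩).le
  · rw [Real.sqrt_eq_zero'.2 (sub_nonpos.2 h2), mul_zero]

theorem Setup.II_neg (h : Setup n C t S X Z) {a b c H : ℝ} (h0 : 0 < H) (hS : H ≤ S)
    (hp : ∀ v ∈ Ioo 0 H, QQ n (C - n) a b c X Z v < 0) : II n C t a b c H < 0 := by
  have := h.II_pos (a := -a) (b := -b) (c := -c) h0 hS fun v hv => by
    have := hp v hv
    unfold QQ phi at *
    linarith
  rw [h.II_lin] at *
  linarith

theorem Setup.small (h : Setup n C t S X Z) {P : ℝ → Prop} (hP : ∀ᶠ v in 𝓝[>] 0, P v) {H : ℝ}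
    (h0 : 0 < H) : ∃ K ∈ Ioo 0 H, K < S ∧ ∀ v ∈ Ioo 0 K, v ∈ Ioo 0 S ∧ P v := by
  obtain ⟨u, hu, h1⟩ := mem_nhdsGT_iff_exists_Ioo_subset.1 ((h.ev.and hP).and (Ioo_mem_nhdsGT h0))
  have h2 : u / 2 ∈ Ioo 0 u := ⟨half_pos hu, half_lt_self hu⟩
  exact ⟨u / 2, (h1 h2).2, (h1 h2).1.1.2, fun v hv => (h1 ⟨hv.1, hv.2.trans h2.2⟩).1⟩

theorem Setup.U_lt (h : Setup n C t S X Z) (h3 : 3 * n + 5 < 3 * (C - n)) :
    ∀ᶠ v in 𝓝[>] 0, QQ n (C - n) 1 0 (1 + n - (C - n)) X Z v < 0 := by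
  have h1 : 0 < Nn n (C - n) 1 := by
    unfold Nn
    nlinarith [mul_pos (sub_pos.2 h.k_lt) (sub_pos.2 h3)]
  have h2 : Continuous (Nn n (C - n)) := by unfold Nn; fun_prop
  obtain ⟨a, b, h4, h5⟩ := mem_nhds_iff_exists_Ioo_subset.1 (h2.continuousAt.eventually_const_lt h1)
  filter_upwards [h.ev, h.tend_X.eventually_const_lt h4.1, h.tend_Z.eventually_lt_const h4.2]
    with v hv xa zb
  have x0 := (h.x1 v hv).1.1
  have p : ∀ s ∈ Icc (X v) (Z v), 0 < s := fun s hs => x0.trans_le hs.1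
  have l : ∀ s ∈ Icc (X v) (Z v), 0 < 1 + n * s := fun s hs => pos_le (h.lz hv) (p s hs).le hs.2
  have := E_anti' (Ξ := fun s => -phi0 n (C - n) s) (J := fun s => -r0 n (C - n) s) x0
    (h.x1 v hv).1.2 (h.z1 v hv).1.1 (h.lz hv) ((h.x1 v hv).2.trans (h.z1 v hv).2.symm)
    (fun s hs => (hd_phi0 C (l s hs) (p s hs).ne').fun_neg.congr_deriv (by ring))
    (fun s hs => (hd_r0 _ (l s hs) (p s hs).ne').fun_neg) fun s hs _ => by
      have : 0 < Nn n (C - n) s := h5 ⟨xa.trans_le hs.1, hs.2.trans_lt zb⟩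
      have := l s hs
      have := p s hs
      have := EE_pos n (C - n) s
      rw [neg_lt_zero]
      positivity
  unfold QQ phi
  unfold phi0 at this
  linarith

theorem Setup.b_neg (h : Setup n C t S X Z) {b : ℝ} (hb : b < 0) (k c : ℝ) :
    ∀ᶠ v in 𝓝[>] 0, QQ n k 1 b c X Z v < 0 := by
  have c1 := (hd_ph k h.l1).continuousAt.tendsto
  have h1 := ((((h.tend_U k).sub_const c).mul ((c1.comp h.tend_Z).sub (c1.comp h.tend_X))).add
    (((hd_rho k h.l1).continuousAt.tendsto.comp h.tend_X).const_mul b)).eventually_lt_const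
      (u := 0) (by simpa using mul_neg_of_neg_of_pos hb (rho_pos n k 1))
  filter_upwards [h.ev, h1] with v hv h2
  obtain ⟨⟨x0, x1⟩, -⟩ := h.x1 v hv
  have h4 := h.Q_eq k 1 0 c hv
  have h5 : rho n k (X v) ≤ rho n k (X v) / (1 - X v) :=
    le_div_self (rho_pos _ _ _).le (sub_pos.2 x1) (by linarith)
  have h6 : rho n k (Z v) / (1 - Z v) < 0 :=
    div_neg_of_pos_of_neg (rho_pos _ _ _) (sub_neg.2 (h.z1 v hv).1.1)
  simp only [Function.comp] at h2
  unfold QQ phi DD at *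
  nlinarith [mul_le_mul_of_nonpos_left h5 hb.le, mul_pos_of_neg_of_neg hb h6]

theorem Setup.Q_ge (h : Setup n C t S X Z) (k c : ℝ) : ∃ β > 0, ∃ K ≥ 0, ∀ v ∈ Ioo 0 S,
    β / √(S - v) - K ≤ QQ n k 1 0 c X Z v := by
  have c1 : ContinuousOn (rho n k) (Icc 0 t) := fun s hs =>
    (hd_rho k (h.l hs)).continuousAt.continuousWithinAt
  obtain ⟨r, r0, hr⟩ := isCompact_Icc.exists_forall_le' c1 fun s _ => rho_pos n k s
  obtain ⟨m, m0, hm⟩ := isCompact_Icc.exists_forall_le' (s := Icc 0 t) (fun s hs =>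
    (hd_mu C (h.l hs)).continuousAt.continuousWithinAt) fun s _ => mu_pos n C s
  obtain ⟨B, hB⟩ := isCompact_Icc.exists_bound_of_continuousOn c1
  obtain ⟨A, hA⟩ := isCompact_Icc.exists_bound_of_continuousOn (s := Icc 0 t)
    (f := fun s => c * ph n k s) fun s hs =>
      ((hd_ph k (h.l hs)).const_mul c).continuousAt.continuousWithinAt
  have o : (1 : ℝ) ∈ Icc 0 t := ⟨zero_le_one, h.t1.le⟩
  refine ⟨r * √(m / 12), by positivity, B + 2 * A, by
    linarith [(norm_nonneg _).trans (hB 1 o), (norm_nonneg _).trans (hA 1 o)], fun v hv => ?_⟩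
  obtain ⟨⟨x0, x1⟩, ex⟩ := h.x1 v hv
  obtain ⟨⟨z1, zt⟩, -⟩ := h.z1 v hv
  have mx : ∀ s ∈ Icc 0 (X v), s ∈ Icc 0 t := fun s hs => ⟨hs.1, by linarith [hs.2, h.t1]⟩
  have mz : Z v ∈ Icc 0 t := ⟨by linarith, zt.le⟩
  have a1 := mono_of (f := fun s => -uu n C s - m / 2 * (s ^ 2 / 2 - s ^ 3 / 3))
    (f' := fun s => s * (1 - s) * (mu n C s - m / 2)) x0 (fun s hs => ((hd_u C (h.l
      (mx s hs))).fun_neg.sub ((((hasDerivAt_pow 2 s).div_const 2).sub
        ((hasDerivAt_pow 3 s).div_const 3)).const_mul _)).congr_deriv (by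
          unfold du; push_cast; ring)) fun s hs => mul_pos (mul_pos hs.1 (by linarith [hs.2]))
            (by linarith [hm s (mx s (Ioo_subset_Icc_self hs))])
  rw [h.u0, ex] at a1
  have a2 : √(m / 12) * X v ≤ √(S - v) := by
    refine Real.le_sqrt_of_sq_le ?_
    rw [mul_pow, Real.sq_sqrt (by positivity)]
    nlinarith [mul_pos m0 (mul_pos (sq_pos_of_pos x0) (sub_pos.2 x1))]
  have a3 : r * √(m / 12) / √(S - v) ≤ rho n k (X v) / X v := by
    rw [div_le_div_iff₀ (Real.sqrt_pos.2 (sub_pos.2 hv.2)) x0, mul_assoc]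
    exact mul_le_mul (hr _ (mx _ ⟨x0.le, le_rfl⟩)) a2 (by positivity) (rho_pos _ _ _).le
  have a4 : rho n k (Z v) / Z v ≤ B :=
    (div_le_self (rho_pos _ _ _).le z1.le).trans ((le_abs_self _).trans (hB _ mz))
  have a5 := abs_le.1 (hA _ mz)
  have a6 := abs_le.1 (hA _ (mx _ ⟨x0.le, le_rfl⟩))
  unfold QQ phi
  linarith [a5.2, a6.1]

theorem Setup.loop_lt (h : Setup n C t S X Z) (c : ℝ) :
    ∃ H ∈ Ioo 0 S, II n C t 1 0 c H < II n C t 1 0 c S := by
  obtain ⟨β, hβ, K, hK, hQ⟩ := h.Q_ge (C - n) c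
  have hS := h.S_pos
  obtain ⟨T, eT⟩ : ∃ T, T = 2 * K * √S / β + 1 := ⟨_, rfl⟩
  have T0 : 0 < T := by rw [eT]; positivity
  obtain ⟨ε, eε⟩ : ∃ ε, ε = S * Real.exp (-T) := ⟨_, rfl⟩
  have ε0 : 0 < ε := by rw [eε]; positivity
  have ε1 : ε < S := by
    rw [eε]; exact mul_lt_of_lt_one_right hS (Real.exp_lt_one_iff.2 (neg_neg_of_pos T0))
  obtain ⟨H, eH⟩ : ∃ H, H = S - ε := ⟨_, rfl⟩
  have H0 : 0 < H := by linarith
  have HS : H < S := by linarith
  refine ⟨H, ⟨H0, HS⟩, ?_⟩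
  have ci : ∀ H, IntegrableOn (fun u => √(H - u)) (Ioo 0 S) := fun H =>
    ((by fun_prop : Continuous fun u => √(H - u)).integrableOn_Icc).mono_set Ioo_subset_Icc_self
  have cg : ContinuousOn (fun u => (S - u)⁻¹) (Icc 0 H) :=
    ContinuousOn.inv₀ (by fun_prop) fun u hu => by linarith [hu.2]
  have ig : IntegrableOn ((Ioo 0 H).indicator fun u => (S - u)⁻¹) (Ioo 0 S) :=
    ((integrable_indicator_iff measurableSet_Ioo).2
      (cg.integrableOn_Icc.mono_set Ioo_subset_Icc_self)).integrableOn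
  have eg : ∫ u in Ioo 0 S, (Ioo 0 H).indicator (fun u => (S - u)⁻¹) u = T := by
    rw [setIntegral_indicator measurableSet_Ioo, inter_eq_right.2 (Ioo_subset_Ioo_right HS.le),
      ← integral_Ioc_eq_integral_Ioo, ← intervalIntegral.integral_of_le H0.le,
      intervalIntegral.integral_eq_sub_of_hasDerivAt (f := fun u => -Real.log (S - u))
        (fun u hu => ?_) (cg.intervalIntegrable_of_Icc H0.le), eH, sub_sub_cancel, eε,
      Real.log_mul hS.ne' (Real.exp_pos _).ne', Real.log_exp, sub_zero]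
    · ring
    · rw [uIcc_of_le H0.le] at hu
      exact (((hasDerivAt_id' u).const_sub S).log (by linarith [hu.2])).fun_neg.congr_deriv
        (by ring)
  obtain ⟨i1, e1⟩ := lin3 (ci H) (ci S) ig K K (β * ε / 2)
  have a := setIntegral_mono_on i1 ((h.II_eq 1 0 c S).1.sub (h.II_eq 1 0 c H).1) measurableSet_Ioo
    fun v hv => ?_
  · rw [e1, eg, int_sqrt H0.le HS.le, int_sqrt hS.le le_rfl, integral_sub' (h.II_eq 1 0 c S).1
      (h.II_eq 1 0 c H).1, (h.II_eq 1 0 c S).2, (h.II_eq 1 0 c H).2, sub_zero, sub_zero] at a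
    have b1 := Real.sq_sqrt H0.le
    have b2 := Real.sq_sqrt hS.le
    have b3 : √H ≤ √S := Real.sqrt_le_sqrt HS.le
    have b4 := Real.sqrt_nonneg H
    have b5 : 2 / 3 * √S ^ 3 - 2 / 3 * √H ^ 3 ≤ √S * ε := by
      rw [show ε = √S ^ 2 - √H ^ 2 by linarith]
      nlinarith [mul_nonneg (sq_nonneg (√S - √H)) (by linarith : 0 ≤ √S + 2 * √H)]
    have b6 : β * ε / 2 * T = K * (√S * ε) + β * ε / 2 := by rw [eT]; field_simp
    nlinarith [mul_le_mul_of_nonneg_left b5 hK, mul_pos hβ ε0]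
  · have b0 := Real.sqrt_pos.2 (sub_pos.2 hv.2)
    have b3 : √(H - v) ≤ √(S - v) := Real.sqrt_le_sqrt (by linarith)
    have b4 := mul_le_mul_of_nonneg_right (hQ v hv) (sub_nonneg.2 b3)
    have b5 : β * ε / 2 * (Ioo 0 H).indicator (fun u => (S - u)⁻¹) v ≤
        β / √(S - v) * (√(S - v) - √(H - v)) := by
      by_cases hH : v ∈ Ioo 0 H
      · have b1 := Real.sq_sqrt (sub_pos.2 hH.2).le
        have b2 := Real.sq_sqrt (sub_pos.2 hv.2).le
        rw [indicator_of_mem hH, show ε = √(S - v) ^ 2 - √(H - v) ^ 2 by linarith]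
        generalize √(S - v) = p at *
        generalize √(H - v) = q at *
        rw [← b2, ← sub_nonneg]
        have : 0 ≤ β * (p - q) ^ 2 / (2 * p ^ 2) := by positivity
        convert this using 1
        field_simp
        ring
      · rw [indicator_of_notMem hH, mul_zero]
        exact mul_nonneg (by positivity) (sub_nonneg.2 b3)
    simp only [Pi.sub_apply]
    linarith

theorem Setup.low (h : Setup n C t S X Z) (h3 : 3 * n + 5 < 3 * (C - n)) :
    ∃ b c H0 H1 H2, 0 < H0 ∧ H0 < H1 ∧ H1 < H2 ∧ H2 < S ∧ II n C t 1 b c H0 < 0 ∧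
      0 < II n C t 1 b c H1 ∧ II n C t 1 b c H2 < 0 ∧ 0 < II n C t 1 b c S := by
  have hD : ∀ H, 0 < H → H ≤ S → 0 < -II n C t 0 0 1 H := fun H h0 h1 =>
    neg_pos.2 (h.II_neg h0 h1 fun v hv => by
      have hv' : v ∈ Ioo 0 S := ⟨hv.1, hv.2.trans_le h1⟩
      rw [h.Q_eq _ _ _ _ hv']
      linarith [h.D_pos (C - n) hv'])
  obtain ⟨M, eM⟩ : ∃ M : ℝ → ℝ, M = fun H => II n C t 1 0 0 H / -II n C t 0 0 1 H := ⟨_, rfl⟩
  have hM : ∀ c H, 0 < H → H ≤ S → II n C t 1 0 c H = (M H - c) * -II n C t 0 0 1 H :=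
    fun c H h0 h1 => by
      rw [h.II_lin, eM, sub_mul, div_mul_cancel₀ _ (hD H h0 h1).ne']; ring
  obtain ⟨H2, m2, h2⟩ : ∃ H ∈ Ioo 0 S, M H < min (M S) (1 + n - (C - n)) := by
    rcases le_total (M S) (1 + n - (C - n)) with h4 | h4
    · obtain ⟨H, hH, h5⟩ := h.loop_lt (M S)
      rw [hM _ _ hH.1 hH.2.le, hM _ _ h.S_pos le_rfl, sub_self, zero_mul] at h5
      refine ⟨H, hH, ?_⟩
      rw [min_eq_left h4]
      nlinarith [hD H hH.1 hH.2.le]
    · obtain ⟨H, hH, -, h5⟩ := h.small (h.U_lt h3) h.S_pos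
      have := h.II_neg hH.1 hH.2.le fun v hv => (h5 v hv).2
      rw [hM _ _ hH.1 hH.2.le] at this
      refine ⟨H, hH, ?_⟩
      rw [min_eq_right h4]
      nlinarith [hD H hH.1 hH.2.le]
  obtain ⟨c, c1, c2⟩ := exists_between h2
  rw [lt_min_iff] at c2
  obtain ⟨H1, m1, -, h5⟩ := h.small ((h.tend_U (C - n)).eventually_const_lt c2.2) m2.1
  have s1 : 0 < II n C t 1 0 c H1 := h.II_pos m1.1 (m1.2.trans m2.2).le fun v hv => by
    rw [h.Q_eq _ _ _ _ (h5 v hv).1]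
    exact mul_pos (by linarith [(h5 v hv).2]) (h.D_pos _ (h5 v hv).1)
  have s2 : II n C t 1 0 c H2 < 0 := by
    rw [hM _ _ m2.1 m2.2.le]
    exact mul_neg_of_neg_of_pos (sub_neg.2 c1) (hD _ m2.1 m2.2.le)
  have s3 : 0 < II n C t 1 0 c S := by
    rw [hM _ _ h.S_pos le_rfl]
    exact mul_pos (sub_pos.2 c2.1) (hD _ h.S_pos le_rfl)
  have tb : ∀ H, Tendsto (fun b => II n C t 1 b c H) (𝓝[<] 0) (𝓝 (II n C t 1 0 c H)) := fun H => by
    have : Continuous fun b => II n C t 1 b c H := by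
      simp only [h.II_lin 1 _ c H]
      fun_prop
    exact (this.tendsto 0).mono_left nhdsWithin_le_nhds
  obtain ⟨b, ⟨⟨b1, b2⟩, b3⟩, b0⟩ := (((((tb H1).eventually_const_lt s1).and
    ((tb H2).eventually_lt_const s2)).and ((tb S).eventually_const_lt s3)).and
      self_mem_nhdsWithin).exists
  obtain ⟨H0, m0, h6, h7⟩ := h.small (h.b_neg b0 (C - n) c) m1.1
  exact ⟨b, c, H0, H1, H2, m0.1, m0.2, m1.2, m2.2, h.II_neg m0.1 h6.le fun v hv => (h7 v hv).2,
    b1, b2, b3⟩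

end Pool.Agent.Lib.MP_bf91d6_an.Mel
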