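import Mathlib

set_option autoImplicit false

namespace Pool.Agent.Lib.MP_bf91d6_an.Mel

open Set MeasureTheory Filter Topology

theorem hasDerivAt_mul_sqrt (y : ℝ) : HasDerivAt (fun y => y * √y) (3 / 2 * √y) y := by
  rcases lt_trichotomy y 0 with h | rfl | h
  · rw [Real.sqrt_eq_zero'.2 h.le, mul_zero]
    refine (hasDerivAt_const y 0).congr_of_eventuallyEq ?_
    filter_upwards [Iio_mem_nhds h] with t ht
    rw [Real.sqrt_eq_zero'.2 (le_of_lt ht), mul_zero]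
  · rw [hasDerivAt_iff_tendsto_slope_zero]
    have h1 : Tendsto (fun t : ℝ => √t) (𝓝[≠] 0) (𝓝 (3 / 2 * √0)) := by
      have := (Real.continuous_sqrt.tendsto 0).mono_left (nhdsWithin_le_nhds (s := {0}ᶜ))
      simpa using this
    refine h1.congr' ?_
    filter_upwards [self_mem_nhdsWithin] with t ht
    have : t ≠ 0 := ht
    simp only [zero_add, zero_mul, sub_zero, smul_eq_mul]
    field_simp
  · have h1 := (hasDerivAt_id y).mul (Real.hasDerivAt_sqrt h.ne')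
    refine h1.congr_deriv ?_
    have h2 := Real.sqrt_pos.2 h
    have h3 := Real.mul_self_sqrt h.le
    simp only [id]
    field_simp
    linarith

theorem int_sqrt {a H b : ℝ} (h1 : a ≤ H) (h2 : H ≤ b) :
    ∫ u in Ioo a b, √(H - u) = 2 / 3 * √(H - a) ^ 3 := by
  rw [← integral_Ioc_eq_integral_Ioo, ← intervalIntegral.integral_of_le (h1.trans h2)]
  have hd : ∀ u ∈ uIcc a b, HasDerivAt (fun u => -(2 / 3) * ((H - u) * √(H - u))) (√(H - u)) u :=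
    fun u _ => (((hasDerivAt_mul_sqrt (H - u)).comp u
      ((hasDerivAt_id u).const_sub H)).const_mul _).congr_deriv (by ring)
  rw [intervalIntegral.integral_eq_sub_of_hasDerivAt hd
    ((by fun_prop : Continuous fun u => √(H - u)).intervalIntegrable _ _),
    Real.sqrt_eq_zero'.2 (sub_nonpos.2 h2)]
  have := Real.mul_self_sqrt (sub_nonneg.2 h1)
  linear_combination (-(2 / 3) * √(H - a)) * this

theorem ae_nn {f : ℝ → ℝ} {a b : ℝ} (p q : ℝ) (h : ∀ u ∈ Ioo a b, u ≠ p → u ≠ q → 0 ≤ f u) :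
    0 ≤ᵐ[volume.restrict (Ioo a b)] f := by
  refine (ae_restrict_iff' measurableSet_Ioo).2 ?_
  filter_upwards [compl_mem_ae_iff.2 (measure_singleton p), compl_mem_ae_iff.2
    (measure_singleton q)] with u h1 h2 hu using h u hu h1 h2

theorem pos_int {f : ℝ → ℝ} {a b c d : ℝ} (p q : ℝ) (hi : IntegrableOn f (Ioo a b))
    (h : ∀ u ∈ Ioo a b, u ≠ p → u ≠ q → 0 ≤ f u) (hc : a ≤ c) (hcd : c < d) (hd : d ≤ b)
    (hp : ∀ u ∈ Ioo c d, 0 < f u) : 0 < ∫ u in Ioo a b, f u := by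
  rw [setIntegral_pos_iff_support_of_nonneg_ae (ae_nn p q h) hi]
  refine lt_of_lt_of_le ?_ (measure_mono (s := Ioo c d) fun u hu =>
    ⟨(hp u hu).ne', hc.trans_lt hu.1, hu.2.trans_le hd⟩)
  simpa using hcd

theorem sq2 {u v H K : ℝ} (h : u ≤ v) (hK : H ≤ K) (hv : v ≤ K) :
    √(K - u) * √(H - v) ≤ √(K - v) * √(H - u) := by
  rw [← Real.sqrt_mul (by linarith), ← Real.sqrt_mul (by linarith)]
  exact Real.sqrt_le_sqrt (by nlinarith [mul_nonneg (sub_nonneg.2 h) (sub_nonneg.2 hK)])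

theorem sq2' {u v H K : ℝ} (h : u < v) (hK : H < K) (hv : v ≤ H) :
    √(K - u) * √(H - v) < √(K - v) * √(H - u) := by
  rw [← Real.sqrt_mul (by linarith), ← Real.sqrt_mul (by linarith)]
  exact Real.sqrt_lt_sqrt (mul_nonneg (by linarith) (by linarith))
    (by nlinarith [mul_pos (sub_pos.2 h) (sub_pos.2 hK)])

theorem tri_abs {D E F a1 b1 c1 a2 b2 c2 a3 b3 c3 : ℝ} (hD : 0 < D) (hE : 0 ≤ E) (hF : 0 ≤ F)
    (hb1 : 0 ≤ b1) (hb3 : 0 ≤ b3) (e1 : D * b1 ^ 2 = E * a1 ^ 2 + F * c1 ^ 2)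
    (e2 : D * b2 ^ 2 = E * a2 ^ 2 + F * c2 ^ 2) (e3 : D * b3 ^ 2 = E * a3 ^ 2 + F * c3 ^ 2)
    (m1 : 0 ≤ a1 * c2 - a2 * c1) (m3 : 0 ≤ a2 * c3 - a3 * c2) :
    (a1 * c3 - a3 * c1) * b2 ≤ (a1 * c2 - a2 * c1) * b3 + (a2 * c3 - a3 * c2) * b1 := by
  have cs : E * a1 * a3 + F * c1 * c3 ≤ D * b1 * b3 := by
    refine (le_abs_self _).trans (abs_le_of_sq_le_sq ?_ (by positivity))
    have : (D * b1 * b3) ^ 2 = (D * b1 ^ 2) * (D * b3 ^ 2) := by ring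
    rw [this, e1, e3]
    nlinarith [mul_nonneg (mul_nonneg hE hF) (sq_nonneg (a1 * c3 - a3 * c1))]
  refine (le_abs_self _).trans (abs_le_of_sq_le_sq ?_ (by positivity))
  refine le_of_mul_le_mul_left ?_ hD
  have h := mul_le_mul_of_nonneg_left cs (mul_nonneg m1 m3)
  have : D * ((a1 * c2 - a2 * c1) * b3 + (a2 * c3 - a3 * c2) * b1) ^ 2 -
      D * ((a1 * c3 - a3 * c1) * b2) ^ 2 =
      2 * ((a1 * c2 - a2 * c1) * (a2 * c3 - a3 * c2) * (D * b1 * b3) -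
      (a1 * c2 - a2 * c1) * (a2 * c3 - a3 * c2) * (E * a1 * a3 + F * c1 * c3)) := by
    linear_combination (a1 * c2 - a2 * c1) ^ 2 * e3 + (a2 * c3 - a3 * c2) ^ 2 * e1 -
      (a1 * c3 - a3 * c1) ^ 2 * e2
  linarith

theorem tri {H1 H2 H3 s t r : ℝ} (h12 : H1 < H2) (h23 : H2 < H3) (hs : s ≤ t) (ht : t ≤ r)
    (hr : r ≤ H1) :
    (√(H1 - s) * √(H3 - r) - √(H1 - r) * √(H3 - s)) * √(H2 - t) ≤
      (√(H1 - s) * √(H3 - t) - √(H1 - t) * √(H3 - s)) * √(H2 - r) +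
      (√(H1 - t) * √(H3 - r) - √(H1 - r) * √(H3 - t)) * √(H2 - s) := by
  have e : ∀ u ≤ H1, (H3 - H1) * √(H2 - u) ^ 2 =
      (H3 - H2) * √(H1 - u) ^ 2 + (H2 - H1) * √(H3 - u) ^ 2 := fun u hu => by
    rw [Real.sq_sqrt (by linarith), Real.sq_sqrt (by linarith), Real.sq_sqrt (by linarith)]
    ring
  refine tri_abs (by linarith) (by linarith) (by linarith) (Real.sqrt_nonneg _)
    (Real.sqrt_nonneg _) (e s (by linarith)) (e t (by linarith)) (e r hr) ?_ ?_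
  · linarith [sq2 (H := H1) (K := H3) hs (by linarith) (by linarith)]
  · linarith [sq2 (H := H1) (K := H3) ht (by linarith) (by linarith)]

theorem cube_pos {a b c a0 b0 c0 t : ℝ} (ha : 0 < a) (hab : a < b) (hbc : b < c) (ht : 0 < t)
    (ha0 : 0 ≤ a0) (hb0 : 0 ≤ b0) (hc0 : 0 ≤ c0) (ea : a0 ^ 2 = a ^ 2 + t) (eb : b0 ^ 2 = b ^ 2 + t)
    (ec : c0 ^ 2 = c ^ 2 + t) (h1 : b0 * a < a0 * b) (h2 : c0 * b < b0 * c) :
    0 < (b0 * c - c0 * b) * a ^ 3 - (a0 * c - c0 * a) * b ^ 3 + (a0 * b - b0 * a) * c ^ 3 := by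
  have hb : 0 < b := ha.trans hab
  have hc : 0 < c := hb.trans hbc
  obtain ⟨x, rfl⟩ : ∃ x, a0 = x * a := ⟨a0 / a, by field_simp⟩
  obtain ⟨y, rfl⟩ : ∃ x, b0 = x * b := ⟨b0 / b, by field_simp⟩
  obtain ⟨z, rfl⟩ : ∃ x, c0 = x * c := ⟨c0 / c, by field_simp⟩
  have hx : 0 ≤ x := nonneg_of_mul_nonneg_left ha0 ha
  have hy : 0 ≤ y := nonneg_of_mul_nonneg_left hb0 hb
  have hz : 0 ≤ z := nonneg_of_mul_nonneg_left hc0 hc
  have hxy : 0 < x - y := (mul_pos_iff_of_pos_right (mul_pos ha hb)).1 (by linarith)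
  have hyz : 0 < y - z := (mul_pos_iff_of_pos_right (mul_pos hb hc)).1 (by linarith)
  have hxz : 0 < x - z := by linarith
  have e1 : (x ^ 2 - 1) * a ^ 2 = t := by linarith
  have e2 : (y ^ 2 - 1) * b ^ 2 = t := by linarith
  have e3 : (z ^ 2 - 1) * c ^ 2 = t := by linarith
  have p1 : 0 < x ^ 2 - 1 := (mul_pos_iff_of_pos_right (by positivity)).1 (e1 ▸ ht)
  have p2 : 0 < y ^ 2 - 1 := (mul_pos_iff_of_pos_right (by positivity)).1 (e2 ▸ ht)
  have p3 : 0 < z ^ 2 - 1 := (mul_pos_iff_of_pos_right (by positivity)).1 (e3 ▸ ht)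
  have h : 0 < a * b * c * (t * ((x - y) * (y - z) * (x - z) * (y * (x + z) + x * z + 1))) := by
    positivity
  refine (mul_pos_iff_of_pos_right (mul_pos (mul_pos p1 p2) p3)).1 (h.trans_eq ?_)
  linear_combination (-(a * b * c * ((y - z) * (y ^ 2 - 1) * (z ^ 2 - 1)))) * e1 +
    (a * b * c * ((x - z) * (x ^ 2 - 1) * (z ^ 2 - 1))) * e2 -
    (a * b * c * ((x - y) * (x ^ 2 - 1) * (y ^ 2 - 1))) * e3

/-- `H` is a zero of the transform of `Q`. -/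
def Zr (Q : ℝ → ℝ) (S H : ℝ) : Prop :=
  IntegrableOn (fun u => Q u * √(H - u)) (Ioo 0 S) ∧ ∫ u in Ioo 0 S, Q u * √(H - u) = 0

theorem lin3 {f g h : ℝ → ℝ} {s : Set ℝ} (hf : IntegrableOn f s) (hg : IntegrableOn g s)
    (hh : IntegrableOn h s) (p q r : ℝ) :
    IntegrableOn (fun u => p * f u - q * g u + r * h u) s ∧
      ∫ u in s, (p * f u - q * g u + r * h u) =
        (p * ∫ u in s, f u) - (q * ∫ u in s, g u) + r * ∫ u in s, h u := by
  have i1 : IntegrableOn (fun u => p * f u - q * g u) s := (hf.const_mul p).sub (hg.const_mul q)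
  refine ⟨i1.add (hh.const_mul r), ?_⟩
  rw [integral_add i1 (hh.const_mul r), integral_sub (hf.const_mul p) (hg.const_mul q),
    integral_const_mul, integral_const_mul, integral_const_mul]

theorem comb {Q : ℝ → ℝ} {S H1 H2 H3 : ℝ} (z1 : Zr Q S H1) (z2 : Zr Q S H2) (z3 : Zr Q S H3)
    (p q r : ℝ) :
    IntegrableOn (fun u => Q u * (p * √(H1 - u) - q * √(H2 - u) + r * √(H3 - u))) (Ioo 0 S) ∧
      ∫ u in Ioo 0 S, Q u * (p * √(H1 - u) - q * √(H2 - u) + r * √(H3 - u)) = 0 := by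
  have e : (fun u => Q u * (p * √(H1 - u) - q * √(H2 - u) + r * √(H3 - u))) = fun u =>
      p * (Q u * √(H1 - u)) - q * (Q u * √(H2 - u)) + r * (Q u * √(H3 - u)) := by
    funext u; ring
  rw [e]
  obtain ⟨i, e⟩ := lin3 z1.1 z2.1 z3.1 p q r
  refine ⟨i, ?_⟩
  rw [e, z1.2, z2.2, z3.2]
  ring

theorem Zr.neg {Q : ℝ → ℝ} {S H : ℝ} (z : Zr Q S H) : Zr (fun u => -Q u) S H := by
  unfold Zr
  simp only [neg_mul]
  exact ⟨z.1.neg, by rw [integral_neg, z.2, neg_zero]⟩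

theorem tp1 {Q : ℝ → ℝ} {S H : ℝ} (h0 : 0 < H) (hS : H ≤ S) (z : Zr Q S H)
    (hp : ∀ u ∈ Ioo 0 H, 0 < Q u) : False := by
  have h1 : ∀ u ∈ Ioo 0 H, 0 < Q u * √(H - u) := fun u hu =>
    mul_pos (hp u hu) (Real.sqrt_pos.2 (sub_pos.2 hu.2))
  refine (pos_int 0 0 z.1 (fun u hu _ _ => ?_) le_rfl h0 hS h1).ne' z.2
  rcases lt_or_ge u H with h | h
  · exact (h1 u ⟨hu.1, h⟩).le
  · rw [Real.sqrt_eq_zero'.2 (sub_nonpos.2 h), mul_zero]

theorem tp2 {Q : ℝ → ℝ} {S H1 H2 v : ℝ} (h0 : 0 < H1) (h12 : H1 < H2) (hS : H2 ≤ S)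
    (z1 : Zr Q S H1) (z2 : Zr Q S H2) (hp : ∀ u ∈ Ioo 0 H2, u < v → 0 < Q u)
    (hn : ∀ u ∈ Ioo 0 H2, v < u → Q u < 0) : False := by
  rcases le_or_gt H1 v with h | h
  · exact tp1 h0 (by linarith) z1 fun u hu => hp u ⟨hu.1, hu.2.trans h12⟩ (hu.2.trans_le h)
  obtain ⟨i, e⟩ := comb z1 z2 z2 √(H2 - v) √(H1 - v) 0
  refine (pos_int v v i (fun u hu h1 _ => ?_) h0.le h12 hS fun u hu => ?_).ne' e
  · rcases le_or_gt H2 u with h2 | h2
    · rw [Real.sqrt_eq_zero'.2 (sub_nonpos.2 h2), Real.sqrt_eq_zero'.2 (by linarith : H1 - u ≤ 0)]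
      simp
    rcases h1.lt_or_gt with h1 | h1
    · refine mul_nonneg (hp u ⟨hu.1, h2⟩ h1).le ?_
      linarith [sq2 h1.le h12.le (by linarith : v ≤ H2)]
    · refine mul_nonneg_of_nonpos_of_nonpos (hn u ⟨hu.1, h2⟩ h1).le ?_
      linarith [sq2 h1.le h12.le h2.le]
  · refine mul_pos_of_neg_of_neg (hn u ⟨h0.trans hu.1, hu.2⟩ (h.trans hu.1)) ?_
    rw [Real.sqrt_eq_zero'.2 (sub_nonpos.2 hu.1.le)]
    have := mul_pos (Real.sqrt_pos.2 (sub_pos.2 h)) (Real.sqrt_pos.2 (sub_pos.2 hu.2))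
    linarith

theorem two_le {p q w u H K : ℝ} (hp : 0 ≤ p) (hK : H ≤ K) (hw : w < H) (hu : u ≤ w)
    (e : p * √(K - w) = q * √(H - w)) : p * √(K - u) ≤ q * √(H - u) := by
  have h1 := mul_le_mul_of_nonneg_left (sq2 hu hK (by linarith : w ≤ K)) hp
  refine le_of_mul_le_mul_right ?_ (Real.sqrt_pos.2 (sub_pos.2 hw))
  rw [← mul_assoc, ← mul_assoc, e] at h1
  linarith

theorem two_ge {p q w u H K : ℝ} (hp : 0 ≤ p) (hK : H ≤ K) (hw : w < H) (hu : w ≤ u)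
    (e : p * √(K - w) = q * √(H - w)) : q * √(H - u) ≤ p * √(K - u) := by
  rcases le_or_gt u K with h | h
  · have h1 := mul_le_mul_of_nonneg_left (sq2 hu hK h) hp
    refine le_of_mul_le_mul_right ?_ (Real.sqrt_pos.2 (sub_pos.2 hw))
    rw [← mul_assoc, ← mul_assoc, e] at h1
    linarith
  · rw [Real.sqrt_eq_zero'.2 (by linarith : H - u ≤ 0), mul_zero]
    positivity

theorem vd {Q : ℝ → ℝ} {S H1 H2 H3 u1 u2 : ℝ} (h0 : 0 < H1) (h12 : H1 < H2) (h23 : H2 < H3)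
    (hS : H3 ≤ S) (z1 : Zr Q S H1) (z2 : Zr Q S H2) (z3 : Zr Q S H3)
    (p1 : ∀ u ∈ Ioo 0 H3, u < u1 → 0 < Q u) (p2 : ∀ u ∈ Ioo 0 H3, u1 < u → u < u2 → Q u < 0)
    (p3 : ∀ u ∈ Ioo 0 H3, u2 < u → 0 < Q u)
    (mono : ∀ u ∈ Ioo 0 H3, ∀ v ∈ Ioo 0 H3, u2 < u → u ≤ v → Q u ≤ Q v) : False := by
  have sub : ∀ u ∈ Ioo 0 H2, u ∈ Ioo 0 H3 := fun u hu => ⟨hu.1, hu.2.trans h23⟩
  rcases le_or_gt u1 0 with a0 | a0
  · exact tp2 (v := u2) h0 h12 (by linarith) z1.neg z2.neg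
      (fun u h h' => neg_pos.2 (p2 u (sub u h) (a0.trans_lt h.1) h'))
      fun u h h' => neg_neg_of_pos (p3 u (sub u h) h')
  rcases le_or_gt H2 u2 with a2 | a2
  · exact tp2 (v := u1) h0 h12 (by linarith) z1 z2 (fun u h => p1 u (sub u h))
      fun u h h' => p2 u (sub u h) h' (h.2.trans_le a2)
  rcases le_or_gt H1 u1 with a1 | a1
  · exact tp1 h0 (by linarith) z1 fun u h => p1 u ⟨h.1, by linarith [h.2]⟩ (h.2.trans_le a1)
  obtain ⟨P, eP⟩ : ∃ P, P = √(H2 - 0) * √(H3 - u1) - √(H3 - 0) * √(H2 - u1) := ⟨_, rfl⟩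
  obtain ⟨q, eq⟩ : ∃ q, q = √(H1 - 0) * √(H3 - u1) - √(H3 - 0) * √(H1 - u1) := ⟨_, rfl⟩
  obtain ⟨r, er⟩ : ∃ r, r = √(H1 - 0) * √(H2 - u1) - √(H2 - 0) * √(H1 - u1) := ⟨_, rfl⟩
  have s12 := sq2' a0 h12 a1.le
  have s23 := sq2' a0 h23 (a1.trans h12).le
  have hr : 0 < r := by rw [er]; linarith
  have hq : 0 < q := by rw [eq]; linarith [sq2' a0 (h12.trans h23) a1.le]
  have f1 : ∀ u, 0 ≤ u → u ≤ u1 → 0 ≤ P * √(H1 - u) - q * √(H2 - u) + r * √(H3 - u) :=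
    fun u h h' => by rw [eP, eq, er]; linarith [tri h12 h23 h h' a1.le]
  have f2 : ∀ u, u1 ≤ u → u ≤ H1 → P * √(H1 - u) - q * √(H2 - u) + r * √(H3 - u) ≤ 0 :=
    fun u h h' => by rw [eP, eq, er]; linarith [tri h12 h23 a0.le h h']
  have k0 : ∀ {H u : ℝ}, H ≤ u → √(H - u) = 0 := fun h => Real.sqrt_eq_zero'.2 (sub_nonpos.2 h)
  have kp : ∀ {H u : ℝ}, u < H → 0 < √(H - u) := fun h => Real.sqrt_pos.2 (sub_pos.2 h)
  have hrq : r < q := by
    have h1 := f2 H1 a1.le le_rfl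
    rw [k0 le_rfl] at h1
    have h2 : √(H2 - H1) < √(H3 - H1) := Real.sqrt_lt_sqrt (by linarith) (by linarith)
    have h3 := kp h12
    by_contra h4
    nlinarith [mul_le_mul_of_nonneg_right (not_lt.1 h4) h3.le, mul_lt_mul_of_pos_left h2 hr]
  obtain ⟨w, hw, ew⟩ : ∃ w < H2, r * √(H3 - w) = q * √(H2 - w) := by
    have hd : 0 < q ^ 2 - r ^ 2 := by nlinarith
    have hd2 : 0 < (H3 - H2) / (q ^ 2 - r ^ 2) := div_pos (by linarith) hd
    refine ⟨H2 - r ^ 2 * ((H3 - H2) / (q ^ 2 - r ^ 2)), by nlinarith [mul_pos (sq_pos_of_pos hr) hd2], ?_⟩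
    have e1 : H3 - (H2 - r ^ 2 * ((H3 - H2) / (q ^ 2 - r ^ 2))) =
      q ^ 2 * ((H3 - H2) / (q ^ 2 - r ^ 2)) := by field_simp; ring
    rw [e1, sub_sub_cancel, Real.sqrt_mul (sq_nonneg q), Real.sqrt_mul (sq_nonneg r),
      Real.sqrt_sq hq.le, Real.sqrt_sq hr.le]
    ring
  have hw1 : H1 ≤ w := by
    by_contra h
    have h1 := f2 H1 a1.le le_rfl
    rw [k0 le_rfl] at h1
    have h2 := mul_lt_mul_of_pos_left (sq2' (not_le.1 h) h23 h12.le) hr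
    rw [← mul_assoc, ← mul_assoc, ew] at h2
    nlinarith [mul_le_mul_of_nonneg_right h1 (kp hw).le]
  rcases le_or_gt w u2 with b | b
  · obtain ⟨η, eη⟩ : ∃ η, η * (√(H1 - u1) * √(H2 - u2)) = r * √(H3 - u2) - q * √(H2 - u2) :=
      ⟨_, div_mul_cancel₀ _ (mul_pos (kp a1) (kp a2)).ne'⟩
    have hη : 0 ≤ η := by
      refine nonneg_of_mul_nonneg_left ?_ (mul_pos (kp a1) (kp a2))
      rw [eη]; linarith [two_ge hr.le h23.le hw b ew]
    have e2 : r * √(H3 - u2) = (q + η * √(H1 - u1)) * √(H2 - u2) := by linarith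
    obtain ⟨i, e⟩ := comb z1 z2 z3 (P + η * √(H2 - u1)) (q + η * √(H1 - u1)) r
    refine (pos_int u1 u2 i (fun u hu h1 h2 => ?_) (by linarith) h23 hS fun u hu => ?_).ne' e
    · rcases le_or_gt H3 u with h3 | h3
      · rw [k0 h3, k0 (by linarith : H2 ≤ u), k0 (by linarith : H1 ≤ u)]; simp
      rcases h1.lt_or_gt with h1 | h1
      · refine mul_nonneg (p1 u ⟨hu.1, h3⟩ h1).le ?_
        nlinarith [f1 u hu.1.le h1.le,
          mul_le_mul_of_nonneg_left (sq2 h1.le h12.le (by linarith : u1 ≤ H2)) hη]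
      rcases h2.lt_or_gt with h2 | h2
      · refine mul_nonneg_of_nonpos_of_nonpos (p2 u ⟨hu.1, h3⟩ h1 h2).le ?_
        rcases le_total u H1 with h4 | h4
        · nlinarith [f2 u h1.le h4,
            mul_le_mul_of_nonneg_left (sq2 h1.le h12.le (by linarith : u ≤ H2)) hη]
        · rw [k0 h4]; linarith [two_le hr.le h23.le a2 h2.le e2]
      · refine mul_nonneg (p3 u ⟨hu.1, h3⟩ h2).le ?_
        rw [k0 (by linarith : H1 ≤ u)]; linarith [two_ge hr.le h23.le a2 h2.le e2]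
    · refine mul_pos (p3 u ⟨by linarith [hu.1], hu.2⟩ (a2.trans hu.1)) ?_
      rw [k0 hu.1.le, k0 (by linarith [hu.1] : H1 ≤ u)]
      linarith [mul_pos hr (kp hu.2)]
  · obtain ⟨i, e⟩ := comb z1 z2 z3 P q r
    have hw3 : w ∈ Ioo 0 H3 := ⟨by linarith, by linarith⟩
    have hQ := p3 w hw3 b
    have ci : ∀ H, IntegrableOn (fun u => √(H - u)) (Ioo u1 S) := fun H =>
      ((by fun_prop : Continuous fun u => √(H - u)).integrableOn_Icc).mono_set Ioo_subset_Icc_self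
    have cf : Continuous fun u => P * √(H1 - u) - q * √(H2 - u) + r * √(H3 - u) := by fun_prop
    have i2 : IntegrableOn (fun u => Q w * (Ioi u1).indicator
        (fun u => P * √(H1 - u) - q * √(H2 - u) + r * √(H3 - u)) u) (Ioo 0 S) :=
      ((cf.integrableOn_Icc.mono_set Ioo_subset_Icc_self).indicator measurableSet_Ioi).const_mul _
    have h5 := integral_nonneg_of_ae (ae_nn (a := 0) (b := S) (f := fun u => Q u *
      (P * √(H1 - u) - q * √(H2 - u) + r * √(H3 - u)) - Q w * (Ioi u1).indicator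
        (fun u => P * √(H1 - u) - q * √(H2 - u) + r * √(H3 - u)) u) u1 u2 fun u hu h1 h2 => ?_)
    · rw [integral_sub i i2, e, integral_const_mul, setIntegral_indicator measurableSet_Ioi,
        Ioo_inter_Ioi, max_eq_right a0.le,
        (lin3 (ci H1) (ci H2) (ci H3) P q r).2, int_sqrt a1.le (by linarith),
        int_sqrt (by linarith) (by linarith), int_sqrt (by linarith) hS] at h5
      have sq : ∀ H, u1 ≤ H → √(H - 0) ^ 2 = √(H - u1) ^ 2 + u1 := fun H h => by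
        rw [Real.sq_sqrt (by linarith), Real.sq_sqrt (by linarith)]; ring
      have h6 := cube_pos (kp a1) (Real.sqrt_lt_sqrt (by linarith) (by linarith : H1 - u1 < H2 - u1))
        (Real.sqrt_lt_sqrt (by linarith) (by linarith : H2 - u1 < H3 - u1)) a0 (Real.sqrt_nonneg _)
        (Real.sqrt_nonneg _) (Real.sqrt_nonneg _) (sq H1 a1.le) (sq H2 (by linarith))
        (sq H3 (by linarith)) (by linarith) (by linarith)
      rw [← eP, ← eq, ← er] at h6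
      nlinarith [mul_pos hQ h6]
    rcases h1.lt_or_gt with h1 | h1
    · rw [indicator_of_notMem (by simpa using h1.le), mul_zero, sub_zero]
      exact mul_nonneg (p1 u ⟨hu.1, by linarith⟩ h1).le (f1 u hu.1.le h1.le)
    rw [indicator_of_mem (by simpa using h1), ← sub_mul]
    rcases le_or_gt H3 u with h3 | h3
    · rw [k0 h3, k0 (by linarith : H2 ≤ u), k0 (by linarith : H1 ≤ u)]; simp
    rcases le_total u w with h4 | h4
    · refine mul_nonneg_of_nonpos_of_nonpos ?_ ?_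
      · rcases h2.lt_or_gt with h2 | h2
        · linarith [p2 u ⟨hu.1, h3⟩ h1 h2]
        · linarith [mono u ⟨hu.1, h3⟩ w hw3 h2 h4]
      · rcases le_total u H1 with h5 | h5
        · exact f2 u h1.le h5
        · rw [k0 h5]; linarith [two_le hr.le h23.le hw h4 ew]
    · refine mul_nonneg (by linarith [mono w hw3 u ⟨hu.1, h3⟩ b h4]) ?_
      rw [k0 (by linarith : H1 ≤ u)]; linarith [two_ge hr.le h23.le hw h4 ew]

theorem qc_zero {R D : ℝ → ℝ} {S H1 H2 H3 : ℝ} (h0 : 0 < H1) (h12 : H1 < H2) (h23 : H2 < H3)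
    (hS : H3 ≤ S) (z1 : Zr (fun u => R u * D u) S H1) (z2 : Zr (fun u => R u * D u) S H2)
    (z3 : Zr (fun u => R u * D u) S H3)
    (qc : ∀ s u v, 0 < s → s < u → u < v → v < S → R u < max (R s) (R v))
    (hD : ∀ u ∈ Ioo 0 S, 0 < D u) (hm : ∀ u ∈ Ioo 0 S, ∀ v ∈ Ioo 0 S, u ≤ v → D u ≤ D v) :
    False := by
  have sub : ∀ u ∈ Ioo 0 H3, u ∈ Ioo 0 S := fun u hu => ⟨hu.1, hu.2.trans_le hS⟩
  obtain ⟨T, eT⟩ : ∃ T, T = {u ∈ Ioo 0 H3 | R u ≤ 0} := ⟨_, rfl⟩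
  have hT : ∀ u ∈ Ioo 0 H3, u ∉ T → 0 < R u := fun u hu h => by
    by_contra h1
    exact h (eT ▸ ⟨hu, not_lt.1 h1⟩)
  have hT' : ∀ u ∈ T, u ∈ Ioo 0 H3 ∧ R u ≤ 0 := fun u hu => by rwa [eT] at hu
  rcases T.eq_empty_or_nonempty with h | h
  · exact tp1 (h0.trans (h12.trans h23)) hS z3 fun u hu =>
      mul_pos (hT u hu (h ▸ notMem_empty u)) (hD u (sub u hu))
  have bb : BddBelow T := ⟨0, fun u hu => (hT' u hu).1.1.le⟩
  have ba : BddAbove T := ⟨H3, fun u hu => (hT' u hu).1.2.le⟩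
  have p3 : ∀ u ∈ Ioo 0 H3, sSup T < u → 0 < R u := fun u hu h' =>
    hT u hu (notMem_of_csSup_lt h' ba)
  refine vd (u1 := sInf T) (u2 := sSup T) h0 h12 h23 hS z1 z2 z3 (fun u hu h' => ?_)
    (fun u hu h1 h2 => ?_) (fun u hu h' => mul_pos (p3 u hu h') (hD u (sub u hu)))
    fun u hu v hv h1 h2 => ?_
  · exact mul_pos (hT u hu (notMem_of_lt_csInf h' bb)) (hD u (sub u hu))
  · obtain ⟨s, hs, h3⟩ := exists_lt_of_csInf_lt h h1
    obtain ⟨v, hv, h4⟩ := exists_lt_of_lt_csSup h h2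
    refine mul_neg_of_neg_of_pos ((qc s u v (hT' s hs).1.1 h3 h4 (sub v (hT' v hv).1).2).trans_le
      (max_le (hT' s hs).2 (hT' v hv).2)) (hD u (sub u hu))
  · rcases h2.eq_or_lt with rfl | h2
    · exact le_rfl
    obtain ⟨s, hs⟩ := h
    have h3 := qc s u v (hT' s hs).1.1 ((le_csSup ba hs).trans_lt h1) h2 (sub v hv).2
    have h4 := p3 u hu h1
    have h5 : R u < R v := (lt_max_iff.1 h3).resolve_left (by linarith [(hT' s hs).2])
    exact mul_le_mul h5.le (hm u (sub u hu) v (sub v hv) h2.le) (hD u (sub u hu)).le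
      (h4.trans h5).le

end Pool.Agent.Lib.MP_bf91d6_an.Mel
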