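import Pool.Agent.Lib.MP_bf91d6_an.Mel.Calc
import Pool.Agent.Lib.MP_bf91d6_an.Mel.VD

set_option autoImplicit false

namespace Pool.Agent.Lib.MP_bf91d6_an.Mel

open Set MeasureTheory Filter Topology

def fP (n C : ℝ) (c : Fin 12 → ℝ) (s : ℝ) : ℝ :=
  (1 + n * s) * (c 1 + c 8 + (2 * c 3 + c 10) * s) - (2 * C + n) * (c 0 + c 1 * s + c 3 * s ^ 2)
def fO (n C : ℝ) (c : Fin 12 → ℝ) (s : ℝ) : ℝ :=
  (1 + n * s) * (c 4 + 2 * c 11) - (2 * C + n) * (c 2 + c 4 * s)
noncomputable def fd (n C : ℝ) (c : Fin 12 → ℝ) (p : ℝ × ℝ) : ℝ :=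
  mu n C p.1 / (1 + n * p.1) * (fP n C c p.1 + fO n C c p.1 * p.2 - (2 * C + n) * c 5 * p.2 ^ 2)
def fC (n C : ℝ) (c : Fin 12 → ℝ) : ℝ :=
  (2 * C + n) * c 5 - (n * (2 * c 3 + c 10) - (2 * C + n) * c 3) * (C - n)
noncomputable def yy (n C H s : ℝ) : ℝ := √2 * √(H - uu n C s) * Real.exp (C * L n s)

theorem div_eq {n : ℝ} (C : ℝ) (c : Fin 12 → ℝ) {p : ℝ × ℝ} (h : 0 < 1 + n * p.1) :
    deriv (fun s => mu n C s * (field c (s, p.2)).1) p.1 +
      deriv (fun t => mu n C p.1 * (field c (p.1, t)).2) p.2 = fd n C c p := by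
  have h1 : HasDerivAt (fun s => (field c (s, p.2)).1) (c 1 + c 3 * (2 * p.1) + c 4 * p.2) p.1 := by
    have := ((((((hasDerivAt_id' p.1).const_mul (c 1)).const_add (c 0)).add_const (c 2 * p.2)).add
      ((hasDerivAt_pow 2 p.1).const_mul (c 3))).add (((hasDerivAt_id' p.1).const_mul
        (c 4)).mul_const p.2)).add_const (c 5 * p.2 ^ 2)
    exact this.congr_deriv (by simp)
  have h2 : HasDerivAt (fun t => (field c (p.1, t)).2) (c 8 + c 10 * p.1 + c 11 * (2 * p.2)) p.2 := by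
    have := (((((hasDerivAt_id' p.2).const_mul (c 8)).const_add (c 6 + c 7 * p.1)).add_const
      (c 9 * p.1 ^ 2)).add ((hasDerivAt_id' p.2).const_mul (c 10 * p.1))).add
        ((hasDerivAt_pow 2 p.2).const_mul (c 11))
    exact this.congr_deriv (by simp)
  rw [((hd_mu C h).fun_mul h1).deriv, (h2.const_mul _).deriv]
  have := h.ne'
  have := ne2 h
  unfold fd fP fO field
  field_simp
  ring

theorem inner_int (m A B D : ℝ) {y : ℝ} (hy : 0 ≤ y) :
    ∫ t in Ioo (-y) y, m * (A + B * t - D * t ^ 2) = m * (2 * y * A - 2 / 3 * D * y ^ 3) := by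
  rw [← integral_Ioc_eq_integral_Ioo, ← intervalIntegral.integral_of_le (by linarith),
    intervalIntegral.integral_eq_sub_of_hasDerivAt
      (f := fun t => m * (A * t + B / 2 * t ^ 2 - D / 3 * t ^ 3)) (fun t _ => ?_)
      (Continuous.intervalIntegrable (by fun_prop) _ _)]
  · ring
  · exact (((((hasDerivAt_id' t).const_mul A).add ((hasDerivAt_pow 2 t).const_mul (B / 2))).sub
      ((hasDerivAt_pow 3 t).const_mul (D / 3))).const_mul m).congr_deriv (by push_cast; ring)

theorem l_mu {n s : ℝ} (C : ℝ) (h : 0 < 1 + n * s) :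
    (1 + n * s) * mu n C s * Real.exp (C * L n s) ^ 2 = 1 := by
  rw [← exp_L h, mu, sq, ← Real.exp_add, ← Real.exp_add, ← Real.exp_add, ← Real.exp_zero]
  congr 1
  ring

theorem lt_iff_yy {n C x : ℝ} {p : ℝ × ℝ} (h : 0 < 1 + n * p.1) :
    F n C p < F n C (x, 0) ↔ p.2 ∈ Ioo (-yy n C (uu n C x) p.1) (yy n C (uu n C x) p.1) := by
  have e : yy n C (uu n C x) p.1 = √(2 * (uu n C x - uu n C p.1) * Real.exp (C * L n p.1) ^ 2) := by
    rw [Real.sqrt_mul' _ (sq_nonneg _), Real.sqrt_mul zero_le_two, Real.sqrt_sq (Real.exp_pos _).le,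
      yy]
  have h1 := l_mu C h
  have h2 : 0 < Real.exp (C * L n p.1) ^ 2 := by positivity
  rw [mem_Ioo, ← abs_lt, e, Real.lt_sqrt (abs_nonneg _), sq_abs, ← mul_lt_mul_iff_left₀ h2]
  have e2 : F n C (x, 0) * Real.exp (C * L n p.1) ^ 2 - F n C p * Real.exp (C * L n p.1) ^ 2 =
      (2 * (uu n C x - uu n C p.1) * Real.exp (C * L n p.1) ^ 2 - p.2 ^ 2) / 2 := by
    unfold F uu G
    linear_combination (-(p.2 ^ 2) / 2) * h1
  constructor <;> intro h3 <;> linarith

theorem fubini {n C x z : ℝ} (c : Fin 12 → ℝ) (h0 : 0 ≤ x) (hz : 0 < 1 + n * z) :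
    melnikov n C c x z = ∫ s in Ioo x z, mu n C s / (1 + n * s) *
      (2 * yy n C (uu n C x) s * fP n C c s -
        2 / 3 * ((2 * C + n) * c 5) * yy n C (uu n C x) s ^ 3) := by
  have hl : ∀ s ∈ Icc x z, 0 < 1 + n * s := fun s hs => pos_le hz (h0.trans hs.1) hs.2
  have hy : ContinuousOn (yy n C (uu n C x)) (Icc x z) := fun s hs => by
    have h1 := (hd_u C (hl s hs)).continuousAt
    have h2 := (hd_L (hl s hs)).continuousAt
    refine ContinuousAt.continuousWithinAt ?_
    unfold yy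
    fun_prop
  have mem : ∀ p : ℝ × ℝ, p ∈ inside n C x z ↔ p.1 ∈ Ioo x z ∧
      p.2 ∈ Ioo (-yy n C (uu n C x) p.1) (yy n C (uu n C x) p.1) := fun p =>
    ⟨fun h => ⟨⟨h.1, h.2.1⟩, (lt_iff_yy (hl _ ⟨h.1.le, h.2.1.le⟩)).1 h.2.2⟩,
      fun h => ⟨h.1.1, h.1.2, (lt_iff_yy (hl _ (Ioo_subset_Icc_self h.1))).2 h.2⟩⟩
  have ho : IsOpen (inside n C x z) := by
    have h1 : ContinuousOn (F n C) (Ioo x z ×ˢ univ) := fun p hp => by
      have h2 := hl _ (Ioo_subset_Icc_self hp.1)
      have h3 := (hd_mu C h2).continuousAt.comp (continuousAt_fst (p := p))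
      have h4 := (hd_G C h2).continuousAt.comp (continuousAt_fst (p := p))
      exact ((((by fun_prop : ContinuousAt (fun p : ℝ × ℝ => p.2 ^ 2 * (1 + n * p.1)) p).mul
        h3).div_const 2).sub h4).continuousWithinAt
    convert h1.isOpen_inter_preimage (isOpen_Ioo.prod isOpen_univ) (isOpen_Iio (a := F n C (x, 0)))
      using 1
    ext p
    simp [inside, and_assoc]
  obtain ⟨B, hB⟩ := isCompact_Icc.exists_bound_of_continuousOn hy
  have hi : IntegrableOn (fd n C c) (inside n C x z) := by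
    refine (ContinuousOn.integrableOn_compact (isCompact_Icc.prod (isCompact_Icc (a := -B) (b := B)))
      fun p hp => ?_).mono_set (t := Icc x z ×ˢ Icc (-B) B) fun p hp => ?_
    · have h2 := hl _ hp.1
      have h3 : ContinuousAt (fun p : ℝ × ℝ => mu n C p.1) p :=
        (hd_mu C h2).continuousAt.comp (continuousAt_fst (p := p))
      refine ContinuousAt.continuousWithinAt ?_
      unfold fd fP fO
      exact (h3.div (by fun_prop) h2.ne').mul (by fun_prop)
    · obtain ⟨h1, h2, h3⟩ := (mem p).1 hp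
      have h4 := (le_abs_self _).trans (hB _ (Ioo_subset_Icc_self h1))
      exact ⟨Ioo_subset_Icc_self h1, by linarith, by linarith⟩
  rw [melnikov, setIntegral_congr_fun ho.measurableSet (g := fd n C c)
    fun p hp => div_eq C c (hl _ ⟨hp.1.le, hp.2.1.le⟩), ← integral_indicator ho.measurableSet,
    Measure.volume_eq_prod, integral_prod _ ((integrable_indicator_iff ho.measurableSet).2 hi),
    ← integral_indicator measurableSet_Ioo]
  congr 1
  funext s
  by_cases hs : s ∈ Ioo x z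
  · rw [indicator_of_mem hs, ← inner_int _ _ (fO n C c s) _ (by unfold yy; positivity),
      ← integral_indicator measurableSet_Ioo]
    congr 1
    funext y
    simp only [indicator, mem, hs, true_and, fd]
  · simp [indicator, mem, hs]

variable {n C t S : ℝ} {X Z : ℝ → ℝ}

theorem Setup.oval_le (h : Setup n C t S X Z) {x z : ℝ} (ho : IsOval n C x z) :
    z ≤ t ∧ uu n C x ∈ Ioc 0 S := by
  obtain ⟨h0, h1, h2, h3, e⟩ := oval_iff.1 ho
  have h4 : uu n C x ≤ S := by
    rcases h0.eq_or_lt with rfl | h0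
    · exact h.u0.le
    · exact (h.x2 x ⟨h0, h1⟩).1.2.le
  refine ⟨?_, ?_, h4⟩
  · by_contra h5
    have := u_mono C h3 h.t1.le (not_le.1 h5)
    rw [h.ut] at this
    linarith
  · have := u_anti C h.l1 h0 h1 le_rfl
    rwa [u_one] at this

theorem Setup.red (h : Setup n C t S X Z) (c : Fin 12 → ℝ) {x z : ℝ} (ho : IsOval n C x z) :
    melnikov n C c x z =
      2 * √2 * II n C t (fP n C c 0) (fP n C c 1) (fC n C c) (uu n C x) := by
  obtain ⟨hz, hH⟩ := h.oval_le ho
  obtain ⟨h0, h1, h2, h3, e⟩ := oval_iff.1 ho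
  obtain ⟨H, eH⟩ : ∃ H, H = uu n C x := ⟨_, rfl⟩
  have ht : 0 ≤ t := zero_le_one.trans h.t1.le
  rw [← eH] at hH e
  rw [fubini c h0 h3, ← eH, ← setIntegral_eq_of_subset_of_forall_sdiff_eq_zero (t := Ioo 0 t) measurableSet_Ioo
    (Ioo_subset_Ioo h0 hz) fun s hs => ?_]
  swap
  · have : H ≤ uu n C s := by
      rcases not_and_or.1 hs.2 with h4 | h4
      · rcases (not_lt.1 h4).eq_or_lt with rfl | h4
        · exact eH.le
        · exact eH.le.trans (u_anti C h.l1 hs.1.1.le h4 h1.le).le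
      · rcases (not_lt.1 h4).eq_or_lt with rfl | h4
        · exact e.le
        · exact e.le.trans (u_mono C (h.l (Ioo_subset_Icc_self hs.1)) h2.le h4).le
    simp [yy, Real.sqrt_eq_zero'.2 (sub_nonpos.2 this)]
  rw [← integral_Ioc_eq_integral_Ioo, ← intervalIntegral.integral_of_le ht, II,
    ← intervalIntegral.integral_const_mul]
  obtain ⟨α, eα⟩ : ∃ α, α = n * (2 * c 3 + c 10) - (2 * C + n) * c 3 := ⟨_, rfl⟩
  obtain ⟨β, eβ⟩ : ∃ β, β = (2 * C + n) * c 5 := ⟨_, rfl⟩
  have hr : ContinuousOn (fun s => √(H - uu n C s)) (Icc 0 t) :=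
    (continuousOn_const.sub h.u_cont).sqrt
  have c1 : ContinuousOn (fun s => 2 * √2 * (om n C (fP n C c 0) (fP n C c 1) (fC n C c) s *
    √(H - uu n C s))) (Icc 0 t) := continuousOn_const.mul ((h.om_cont _ _ _).mul hr)
  have c2 : ContinuousOn (fun s => 2 * √2 * ((β * ph n (C - n) s + α) * du n C s * √(H - uu n C s) -
      2 / 3 * β * (rho n (C - n) s / (1 + n * s)) * ((H - uu n C s) * √(H - uu n C s))))
      (Icc 0 t) := fun s hs => by
    have h1 := (hd_mu C (h.l hs)).continuousAt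
    have h2 := (hd_rho (C - n) (h.l hs)).continuousAt
    have h3 := (hd_ph (C - n) (h.l hs)).continuousAt
    have h4 := (hd_u C (h.l hs)).continuousAt
    have h5 := (h.l hs).ne'
    refine ContinuousAt.continuousWithinAt ?_
    unfold du
    fun_prop (disch := assumption)
  have e0 := intervalIntegral.integral_eq_sub_of_hasDerivAt (a := 0) (b := t)
    (f := fun s => -(4 / 3 * √2) * ((β * ph n (C - n) s + α) * ((H - uu n C s) * √(H - uu n C s))))
    (fun s hs => ?_) (c2.intervalIntegrable_of_Icc ht)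
  swap
  · rw [uIcc_of_le ht] at hs
    refine (((((hd_ph (C - n) (h.l hs)).const_mul β).add_const α).mul
      ((hasDerivAt_mul_sqrt _).comp s ((hd_u C (h.l hs)).const_sub H))).const_mul _).congr_deriv ?_
    simp only [Function.comp]
    ring
  rw [h.u0, h.ut, Real.sqrt_eq_zero'.2 (sub_nonpos.2 hH.2)] at e0
  simp only [mul_zero, sub_zero] at e0
  have e1 := intervalIntegral.integral_add (μ := volume) (c1.intervalIntegrable_of_Icc ht)
    (c2.intervalIntegrable_of_Icc ht)
  rw [e0, add_zero] at e1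
  rw [← e1]
  refine intervalIntegral.integral_congr fun s hs => ?_
  rw [uIcc_of_le ht] at hs
  have l := h.l hs
  have a1 : Real.exp (C * L n s) = rho n (C - n) s * (1 + n * s) := by
    rw [← exp_L l, rho, ← Real.exp_add]; congr 1; ring
  have a2 := l_mu C l
  have a3 := mul_ph n (C - n) s
  have a4 : √(H - uu n C s) ^ 3 = (H - uu n C s) * √(H - uu n C s) := by
    rcases le_total 0 (H - uu n C s) with h4 | h4
    · rw [pow_succ, Real.sq_sqrt h4]
    · simp [Real.sqrt_eq_zero'.2 h4]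
  have a5 : √2 ^ 3 = 2 * √2 := by rw [pow_succ, Real.sq_sqrt zero_le_two]
  have a6 : mu n C s * Real.exp (C * L n s) ^ 3 = rho n (C - n) s := by
    linear_combination (mu n C s * Real.exp (C * L n s) ^ 2) * a1 + rho n (C - n) s * a2
  have a7 : fP n C c s = α * (s * (s - 1)) + fP n C c 0 * (1 - s) + fP n C c 1 * s := by
    rw [eα]; unfold fP; ring
  have a8 : fC n C c = β - α * (C - n) := by rw [eα, eβ, fC]
  have b1 : mu n C s / (1 + n * s) * yy n C H s =
      √2 * √(H - uu n C s) * (mu n C s * rho n (C - n) s) := by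
    rw [yy, a1]; field_simp
  have b2 : mu n C s / (1 + n * s) * yy n C H s ^ 3 =
      2 * √2 * ((H - uu n C s) * √(H - uu n C s)) * (rho n (C - n) s / (1 + n * s)) := by
    rw [yy, mul_pow, mul_pow, a4, a5, ← a6]; ring
  simp only [← eβ]
  rw [a7, a8]
  unfold om du
  linear_combination (2 * (α * (s * (s - 1)) + fP n C c 0 * (1 - s) + fP n C c 1 * s)) * b1 -
    2 / 3 * β * b2 - 2 * √2 * √(H - uu n C s) * α * (s * (s - 1)) * mu n C s * a3

end Pool.Agent.Lib.MP_bf91d6_an.Mel
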