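import Pool.Agent.Lib.MP_bf91d6_an.Mel.Low
import Pool.Agent.Lib.MP_bf91d6_an.Mel.Red

set_option autoImplicit false

namespace Pool.Agent.Lib.MP_bf91d6_an.Mel

open Set MeasureTheory Filter Topology

theorem encard_le_two {s : Set ℝ} (h : ∀ x ∈ s, ∀ y ∈ s, ∀ z ∈ s, x < y → y < z → False) :
    s.encard ≤ 2 := by
  by_contra h1
  obtain ⟨r, hr, h2⟩ := exists_subset_encard_eq (Order.add_one_le_of_lt (not_le.1 h1))
  obtain ⟨x, y, z, xy, xz, yz, rfl⟩ := encard_eq_three.1 h2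
  have hx : x ∈ s := hr (by simp)
  have hy : y ∈ s := hr (by simp)
  have hz : z ∈ s := hr (by simp)
  have := h x hx y hy z hz
  have := h x hx z hz y hy
  have := h y hy x hx z hz
  have := h y hy z hz x hx
  have := h z hz x hx y hy
  have := h z hz y hy x hx
  grind

variable {n C t S : ℝ} {X Z : ℝ → ℝ}

theorem Setup.oval (h : Setup n C t S X Z) {v : ℝ} (hv : v ∈ Ioo 0 S) : IsOval n C (X v) (Z v) :=
  oval_iff.2 ⟨(h.x1 v hv).1.1.le, (h.x1 v hv).1.2, (h.z1 v hv).1.1, h.lz hv,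
    (h.x1 v hv).2.trans (h.z1 v hv).2.symm⟩

theorem Setup.upper (h : Setup n C t S X Z) (h3 : 3 * C ≤ 5 + 6 * n) (c : Fin 12 → ℝ)
    (hc : ∃ x z, IsOval n C x z ∧ melnikov n C c x z ≠ 0) :
    {x | ∃ z, IsOval n C x z ∧ melnikov n C c x z = 0}.encard ≤ 2 := by
  refine encard_le_two ?_
  rintro x1 ⟨z1, o1, e1⟩ x2 ⟨z2, o2, e2⟩ x3 ⟨z3, o3, e3⟩ h12 h23
  have s2 : 2 * √2 ≠ 0 := by positivity
  rw [h.red c o1, mul_eq_zero_iff_left s2] at e1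
  rw [h.red c o2, mul_eq_zero_iff_left s2] at e2
  rw [h.red c o3, mul_eq_zero_iff_left s2] at e3
  obtain ⟨a0, b0, c0⟩ := h.up (by linarith) (h.oval_le o3).2.1 (u_anti C h.l1 o2.1 h23 o3.2.1.le)
    (u_anti C h.l1 o1.1 h12 o2.2.1.le) (h.oval_le o1).2.2 e3 e2 e1
  obtain ⟨x, z, o, e⟩ := hc
  rw [h.red c o, h.II_lin, a0, b0, c0] at e
  simp at e

theorem Setup.lower (h : Setup n C t S X Z) (h3 : 5 + 6 * n < 3 * C) : ∃ c : Fin 12 → ℝ,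
    (∃ x z, IsOval n C x z ∧ melnikov n C c x z ≠ 0) ∧
      ∃ x1 x2 x3, 0 < x1 ∧ x1 < x2 ∧ x2 < x3 ∧
        ∀ x ∈ ({x1, x2, x3} : Set ℝ), ∃ z, IsOval n C x z ∧ melnikov n C c x z = 0 := by
  obtain ⟨b, c, H0, H1, H2, a0, a1, a2, a3, s0, s1, s2, s3⟩ := h.low (by linarith)
  have hk := h.k_lt
  have l1 : 1 + n ≠ 0 := by linarith [h.l1]
  have l2 : 2 * C + n ≠ 0 := by linarith
  obtain ⟨e, e1, e2, e3⟩ : ∃ e : Fin 12 → ℝ, fP n C e 0 = 1 ∧ fP n C e 1 = b ∧ fC n C e = c := by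
    refine ⟨![-(2 * C + n)⁻¹, 0, 0, 0, 0, (c + n * ((b - 1) / (1 + n)) * (C - n)) / (2 * C + n),
      0, 0, 0, 0, (b - 1) / (1 + n), 0], ?_, ?_, ?_⟩ <;> simp [fP, fC] <;> field_simp <;> ring
  have hm : ∀ v ∈ Ioo 0 S, melnikov n C e (X v) (Z v) = 2 * √2 * II n C t 1 b c v := fun v hv => by
    rw [h.red e (h.oval hv), e1, e2, e3, (h.x1 v hv).2]
  have ct := h.II_cont 1 b c
  obtain ⟨v1, m1, z1⟩ := intermediate_value_Ioo a1.le ct.continuousOn ⟨s0, s1⟩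
  obtain ⟨v2, m2, z2⟩ := intermediate_value_Ioo' a2.le ct.continuousOn ⟨s2, s1⟩
  obtain ⟨v3, m3, z3⟩ := intermediate_value_Ioo a3.le ct.continuousOn ⟨s2, s3⟩
  have n1 : v1 ∈ Ioo 0 S := ⟨a0.trans m1.1, by linarith [m1.2]⟩
  have n2 : v2 ∈ Ioo 0 S := ⟨by linarith [m2.1], m2.2.trans a3⟩
  have n3 : v3 ∈ Ioo 0 S := ⟨by linarith [m3.1], m3.2⟩
  have st : ∀ u ∈ Ioo 0 S, ∀ v ∈ Ioo 0 S, u < v → X v < X u := fun u hu v hv huv =>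
    (h.x_anti hu hv huv.le).lt_of_ne fun e => huv.ne (by rw [← (h.x1 u hu).2, ← e, (h.x1 v hv).2])
  have n4 : H1 ∈ Ioo 0 S := ⟨a0.trans a1, a2.trans a3⟩
  refine ⟨e, ⟨_, _, h.oval n4, by rw [hm _ n4]; positivity⟩, X v3, X v2, X v1, (h.x1 _ n3).1.1,
    st _ n2 _ n3 (m2.2.trans m3.1), st _ n1 _ n2 (m1.2.trans m2.1), ?_⟩
  rintro x (rfl | rfl | rfl)
  · exact ⟨_, h.oval n3, by rw [hm _ n3, z3, mul_zero]⟩
  · exact ⟨_, h.oval n2, by rw [hm _ n2, z2, mul_zero]⟩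
  · exact ⟨_, h.oval n1, by rw [hm _ n1, z1, mul_zero]⟩

theorem main {n C : ℝ} (hloop : ∃ z, IsOval n C 0 z) :
    (∀ c : Fin 12 → ℝ, (∃ x z, IsOval n C x z ∧ melnikov n C c x z ≠ 0) →
      {x | ∃ z, IsOval n C x z ∧ melnikov n C c x z = 0}.encard ≤ 2) ↔ 3 * C ≤ 5 + 6 * n := by
  obtain ⟨t, ht⟩ := hloop
  obtain ⟨S, X, Z, h⟩ := setup_exists ht
  refine ⟨fun H => ?_, h.upper⟩
  by_contra h3
  obtain ⟨c, h1, x1, x2, x3, -, h4, h5, h6⟩ := h.lower (not_le.1 h3)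
  have := (encard_le_encard h6).trans (H c h1)
  rw [encard_eq_three.2 ⟨_, _, _, h4.ne, (h4.trans h5).ne, h5.ne, rfl⟩] at this
  exact absurd this (by decide)

end Pool.Agent.Lib.MP_bf91d6_an.Mel
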