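import Pool.Agent.Lib.MP_bf91d6_an.Mel.Key
import Pool.Agent.Lib.MP_bf91d6_an.Mel.VD

set_option autoImplicit false

namespace Pool.Agent.Lib.MP_bf91d6_an.Mel

open Set MeasureTheory Filter Topology

noncomputable def DD (n k : ℝ) (X Z : ℝ → ℝ) (v : ℝ) : ℝ := ph n k (Z v) - ph n k (X v)
noncomputable def UU (n k : ℝ) (X Z : ℝ → ℝ) (v : ℝ) : ℝ := QQ n k 1 0 0 X Z v / DD n k X Z v
noncomputable def VV (n k : ℝ) (X Z : ℝ → ℝ) (v : ℝ) : ℝ := QQ n k 0 1 0 X Z v / DD n k X Z v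

variable {n C t S : ℝ} {X Z : ℝ → ℝ}

theorem Setup.D_pos (h : Setup n C t S X Z) (k : ℝ) {v : ℝ} (hv : v ∈ Ioo 0 S) :
    0 < DD n k X Z v :=
  sub_pos.2 (ph_mono k (h.lz hv) (h.x1 v hv).1.1.le ((h.x1 v hv).1.2.trans (h.z1 v hv).1.1))

theorem Setup.D_mono (h : Setup n C t S X Z) (k u : ℝ) (hu : u ∈ Ioo 0 S) (v : ℝ)
    (hv : v ∈ Ioo 0 S) (huv : u ≤ v) : DD n k X Z u ≤ DD n k X Z v := by
  have m : ∀ a b, 0 < 1 + n * b → 0 ≤ a → a ≤ b → ph n k a ≤ ph n k b := fun a b h1 h2 h3 =>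
    h3.eq_or_lt.elim (fun e => e ▸ le_rfl) fun e => (ph_mono k h1 h2 e).le
  exact sub_le_sub (m _ _ (h.lz hv) (zero_le_one.trans (h.z1 u hu).1.1.le) (h.z_mono hu hv huv))
    (m _ _ (h.lx hu) (h.x1 v hv).1.1.le (h.x_anti hu hv huv))

theorem Setup.Q_eq (h : Setup n C t S X Z) (k a b c : ℝ) {v : ℝ} (hv : v ∈ Ioo 0 S) :
    QQ n k a b c X Z v = (a * UU n k X Z v + b * VV n k X Z v - c) * DD n k X Z v := by
  have := (h.D_pos k hv).ne'
  unfold UU VV
  field_simp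
  unfold QQ DD phi
  ring

theorem Setup.hd_Q (h : Setup n C t S X Z) (a b c : ℝ) {v : ℝ} (hv : v ∈ Ioo 0 S) :
    HasDerivAt (QQ n (C - n) a b c X Z)
      (psi n (C - n) a b c (X v) - psi n (C - n) a b c (Z v)) v := by
  obtain ⟨⟨x0, x1⟩, -⟩ := h.x1 v hv
  obtain ⟨⟨z1, -⟩, -⟩ := h.z1 v hv
  refine (((hd_phi C a b c (h.lx hv) x0.ne' (sub_pos.2 x1).ne').comp v (h.xd v hv)).sub
    ((hd_phi C a b c (h.lz hv) (one_pos.trans z1).ne' (sub_neg.2 z1).ne).comp v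
      (h.zd v hv))).congr_deriv ?_
  rw [mul_inv_cancel_right₀ (du_neg n C x0 x1).ne, mul_inv_cancel_right₀ (du_pos n C z1).ne']

theorem Setup.hd_D (h : Setup n C t S X Z) {v : ℝ} (hv : v ∈ Ioo 0 S) :
    HasDerivAt (DD n (C - n) X Z)
      (-(psi n (C - n) 0 0 1 (X v) - psi n (C - n) 0 0 1 (Z v))) v := by
  have e : DD n (C - n) X Z = fun v => -QQ n (C - n) 0 0 1 X Z v := by
    funext v
    simp [DD, QQ, phi]
  exact e ▸ (h.hd_Q 0 0 1 hv).fun_neg

theorem Setup.U_cont (h : Setup n C t S X Z) : ContinuousOn (UU n (C - n) X Z) (Ioo 0 S) :=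
  fun _ hv => ((h.hd_Q 1 0 0 hv).continuousAt.div (h.hd_D hv).continuousAt
    (h.D_pos _ hv).ne').continuousWithinAt

theorem Setup.V_cont (h : Setup n C t S X Z) : ContinuousOn (VV n (C - n) X Z) (Ioo 0 S) :=
  fun _ hv => ((h.hd_Q 0 1 0 hv).continuousAt.div (h.hd_D hv).continuousAt
    (h.D_pos _ hv).ne').continuousWithinAt

theorem Setup.U_sub (h : Setup n C t S X Z) (k : ℝ) {v : ℝ} (hv : v ∈ Ioo 0 S) :
    (UU n k X Z v - (1 + n - k)) * DD n k X Z v = phi0 n k (X v) - phi0 n k (Z v) := by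
  have := h.Q_eq k 1 0 (1 + n - k) hv
  simp only [QQ, phi, one_mul, zero_mul, add_zero] at this
  rw [← this, phi0, phi0]

theorem Setup.U_gt (h : Setup n C t S X Z) (h3 : 3 * (C - n) ≤ 3 * n + 5) {v : ℝ}
    (hv : v ∈ Ioo 0 S) : 1 + n - (C - n) < UU n (C - n) X Z v := by
  have := phi0_lt h.k_lt h3 (h.x1 v hv).1.1 (h.x1 v hv).1.2 (h.z1 v hv).1.1 (h.lz hv)
    ((h.x1 v hv).2.trans (h.z1 v hv).2.symm)
  rw [← sub_pos, ← h.U_sub _ hv, mul_pos_iff_of_pos_right (h.D_pos _ hv)] at this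
  linarith

theorem Setup.wv (h : Setup n C t S X Z) (k : ℝ) {v : ℝ} (hv : v ∈ Ioo 0 S) :
    rho n k (Z v) / DD n k X Z v = rho n k (X v) / DD n k X Z v + k ∧
    UU n k X Z v = rho n k (X v) / DD n k X Z v / X v - rho n k (Z v) / DD n k X Z v / Z v ∧
    VV n k X Z v = rho n k (X v) / DD n k X Z v / (1 - X v) +
      rho n k (Z v) / DD n k X Z v / (Z v - 1) := by
  have := (h.D_pos k hv).ne'
  refine ⟨?_, by unfold UU QQ phi; ring, ?_⟩
  · field_simp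
    unfold DD
    linear_combination mul_ph n k (X v) - mul_ph n k (Z v)
  · unfold VV QQ phi
    rw [show 1 - Z v = -(Z v - 1) by ring, div_neg]
    ring

theorem Setup.key (h : Setup n C t S X Z) (h3 : 3 * (C - n) ≤ 3 * n + 5) {b : ℝ} (hb : 0 ≤ b)
    (c p : ℝ) (hp : p ∈ Ioo 0 S) :
    ¬IsLocalMax (fun v => UU n (C - n) X Z v + b * VV n (C - n) X Z v - c) p := fun hm => by
  obtain ⟨⟨x0, x1⟩, -⟩ := h.x1 p hp
  obtain ⟨⟨z1, -⟩, -⟩ := h.z1 p hp
  have z0 := one_pos.trans z1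
  have hn := Ioo_mem_nhds hp.1 hp.2
  obtain ⟨c', ec⟩ : ∃ c', c' = UU n (C - n) X Z p + b * VV n (C - n) X Z p := ⟨_, rfl⟩
  have m : IsLocalMax (QQ n (C - n) 1 b c' X Z) p := by
    filter_upwards [hm, hn] with v h1 h2
    rw [h.Q_eq _ _ _ _ h2, h.Q_eq _ _ _ _ hp, one_mul, one_mul, ← ec, sub_self, zero_mul]
    exact mul_nonpos_of_nonpos_of_nonneg (by linarith) (h.D_pos _ h2).le
  have e0 := m.hasDerivAt_eq_zero (h.hd_Q 1 b c' hp)
  refine not_max (mem_of_superset hn fun v hv => h.hd_Q 1 b c' hv) e0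
    (((hd_psi _ b c' (h.lx hp) x0.ne' (sub_pos.2 x1).ne').comp p (h.xd p hp)).sub
    ((hd_psi _ b c' (h.lz hp) z0.ne' (sub_neg.2 z1).ne).comp p (h.zd p hp))) ?_ m
  obtain ⟨e1, e2, e3⟩ := h.wv (C - n) hp
  have D := h.D_pos (C - n) hp
  have X1 := sub_pos.2 x1
  have Z1 := sub_pos.2 z1
  have Ex := EE_pos n (C - n) (X p)
  have Ez := EE_pos n (C - n) (Z p)
  have eX : X p - 1 = -(1 - X p) := by ring
  have a := key_alg (b := b) (c := c') (ex := EE n (C - n) (X p) / (X p * (1 - X p)))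
    (ez := EE n (C - n) (Z p) / (Z p * (Z p - 1))) (by linarith [h.l1]) h.k_lt h3 x0 x1 z1 (h.lz hp)
    hb (div_pos (rho_pos _ _ _) D) (div_pos (rho_pos _ _ _) D) e1 (e2 ▸ (h.U_gt h3 hp).le)
    (by rw [ec, ← e2, ← e3]) (by positivity) (by positivity) (by
      unfold psi at e0
      rw [eX, mul_neg, div_neg] at e0
      unfold hh
      linear_combination e0)
  refine (mul_pos_iff_of_pos_right D).1 ((sub_pos.2 a).trans_eq ?_)
  have := (h.lx hp).ne'
  have := (h.lz hp).ne'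
  have := (mu_pos n C (X p)).ne'
  have := (mu_pos n C (Z p)).ne'
  rw [rho_eq C (h.lx hp), rho_eq C (h.lz hp)]
  unfold du
  rw [eX]
  generalize 1 + n * X p = lx at *
  generalize 1 + n * Z p = lz at *
  field_simp

theorem Setup.V_anti (h : Setup n C t S X Z) {u v : ℝ} (hu : 0 < u) (huv : u < v) (hv : v < S) :
    VV n (C - n) X Z v < VV n (C - n) X Z u := by
  have m : ∀ p ∈ Icc u v, p ∈ Ioo 0 S := fun p hp => ⟨hu.trans_le hp.1, hp.2.trans_lt hv⟩
  refine anti_of huv (fun p hp => (h.hd_Q 0 1 0 (m p hp)).fun_div (h.hd_D (m p hp))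
    (h.D_pos _ (m p hp)).ne') fun p hp => ?_
  have hp := m p (Ioo_subset_Icc_self hp)
  obtain ⟨⟨x0, x1⟩, -⟩ := h.x1 p hp
  obtain ⟨⟨z1, -⟩, -⟩ := h.z1 p hp
  have z0 := one_pos.trans z1
  obtain ⟨e1, -, e3⟩ := h.wv (C - n) hp
  have D := h.D_pos (C - n) hp
  have a1 := hB_left x1 z1 (h.lx hp) (div_pos (rho_pos _ _ _) D) e1
  have a2 := hB_right x1 z1 (h.lz hp) (div_pos (rho_pos _ _ _) D) e1
  rw [← e3] at a1 a2
  have X1 := sub_pos.2 x1
  have Z1 := sub_pos.2 z1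
  have Ex := EE_pos n (C - n) (X p)
  have Ez := EE_pos n (C - n) (Z p)
  refine div_neg_of_neg_of_pos ?_ (by positivity)
  have a3 : 0 < ((hB n (C - n) (X p) + VV n (C - n) X Z p) * EE n (C - n) (X p) /
      (X p * (1 - X p)) + (hB n (C - n) (Z p) + VV n (C - n) X Z p) * EE n (C - n) (Z p) /
      (Z p * (Z p - 1))) * DD n (C - n) X Z p := by positivity
  rw [h.Q_eq _ 0 1 0 hp]
  unfold psi
  rw [show X p - 1 = -(1 - X p) by ring, mul_neg (X p), div_neg, div_neg]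
  linear_combination a3

theorem Setup.ev (h : Setup n C t S X Z) : ∀ᶠ v in 𝓝[>] 0, v ∈ Ioo 0 S := Ioo_mem_nhdsGT h.S_pos

theorem Setup.tend_X (h : Setup n C t S X Z) : Tendsto X (𝓝[>] 0) (𝓝 1) := by
  refine tendsto_order.2 ⟨fun a ha => ?_, fun a ha => h.ev.mono fun v hv => (h.x1 v hv).1.2.trans ha⟩
  have h1 := le_max_left a 0
  have h2 := le_max_right a 0
  have h3 := max_lt ha one_pos
  obtain ⟨h4, h5⟩ := h.x2 ((max a 0 + 1) / 2) ⟨by linarith, by linarith⟩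
  filter_upwards [Ioo_mem_nhdsGT h4.1] with v hv
  linarith [h.x_anti ⟨hv.1, hv.2.trans h4.2⟩ h4 hv.2.le]

theorem Setup.tend_Z (h : Setup n C t S X Z) : Tendsto Z (𝓝[>] 0) (𝓝 1) := by
  refine tendsto_order.2 ⟨fun a ha => h.ev.mono fun v hv => ha.trans (h.z1 v hv).1.1, fun a ha => ?_⟩
  have h1 := min_le_left a t
  have h2 := min_le_right a t
  have h3 := lt_min ha h.t1
  obtain ⟨h4, h5⟩ := h.z2 ((min a t + 1) / 2) ⟨by linarith, by linarith⟩
  filter_upwards [Ioo_mem_nhdsGT h4.1] with v hv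
  linarith [h.z_mono ⟨hv.1, hv.2.trans h4.2⟩ h4 hv.2.le]

theorem Setup.tend_U (h : Setup n C t S X Z) (k : ℝ) :
    Tendsto (UU n k X Z) (𝓝[>] 0) (𝓝 (1 + n - k)) := by
  have h1 : ∀ v ∈ Ioo 0 S, ∃ s ∈ Ioo (X v) (Z v), UU n k X Z v = hA n k s := fun v hv => by
    have x0 := (h.x1 v hv).1.1
    have l : ∀ s ∈ Icc (X v) (Z v), 0 < 1 + n * s := fun s hs =>
      pos_le (h.lz hv) (x0.le.trans hs.1) hs.2
    have d1 : ∀ s ∈ Icc (X v) (Z v), HasDerivAt (fun s => rho n k s / s) _ s := fun s hs =>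
      (hd_rho k (l s hs)).fun_div (hasDerivAt_id' s) (x0.trans_le hs.1).ne'
    obtain ⟨s, hs, e⟩ := exists_ratio_hasDerivAt_eq_ratio_slope _ _
      ((h.x1 v hv).1.2.trans (h.z1 v hv).1.1)
      (fun s hs => (d1 s hs).continuousAt.continuousWithinAt)
      (fun s hs => d1 s (Ioo_subset_Icc_self hs)) (ph n k) _
      (fun s hs => (hd_ph k (l s hs)).continuousAt.continuousWithinAt)
      (fun s hs => hd_ph k (l s (Ioo_subset_Icc_self hs)))
    refine ⟨s, hs, ?_⟩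
    have a1 := (l s (Ioo_subset_Icc_self hs)).ne'
    have a2 := (x0.trans hs.1).ne'
    have a3 := (rho_pos n k s).ne'
    rw [UU, div_eq_iff (h.D_pos k hv).ne']
    refine mul_right_cancel₀ (div_ne_zero a3 a1) ?_
    have a4 : (k * rho n k s / (1 + n * s) * s - rho n k s * 1) / s ^ 2 =
        -hA n k s * (rho n k s / (1 + n * s)) := by
      unfold hA
      generalize 1 + n * s = l at *
      field_simp
      ring
    rw [a4] at e
    unfold QQ DD phi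
    linear_combination e
  choose! ξ h2 h3 using h1
  have h4 : Tendsto ξ (𝓝[>] 0) (𝓝 1) := tendsto_of_tendsto_of_tendsto_of_le_of_le' h.tend_X h.tend_Z
    (h.ev.mono fun v hv => (h2 v hv).1.le) (h.ev.mono fun v hv => (h2 v hv).2.le)
  have h5 : ContinuousAt (hA n k) 1 := by
    unfold hA
    fun_prop (disch := norm_num)
  have h6 := h5.tendsto.comp h4
  rw [show hA n k 1 = 1 + n - k by simp [hA]] at h6
  exact h6.congr' (h.ev.mono fun v hv => (h3 v hv).symm)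

theorem Setup.qc (h : Setup n C t S X Z) (h3 : 3 * (C - n) ≤ 3 * n + 5) {b : ℝ} (hb : 0 ≤ b)
    (c : ℝ) : ∀ s u v, 0 < s → s < u → u < v → v < S → UU n (C - n) X Z u +
      b * VV n (C - n) X Z u - c < max (UU n (C - n) X Z s + b * VV n (C - n) X Z s - c)
        (UU n (C - n) X Z v + b * VV n (C - n) X Z v - c) :=
  qc_of ((h.U_cont.add (continuousOn_const.mul h.V_cont)).sub continuousOn_const) (h.key h3 hb c)

theorem Setup.U_mono (h : Setup n C t S X Z) (h3 : 3 * (C - n) ≤ 3 * n + 5) {u v : ℝ} (hu : 0 < u)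
    (huv : u < v) (hv : v < S) : UU n (C - n) X Z u < UU n (C - n) X Z v := by
  obtain ⟨s, h1, h2⟩ := (((h.tend_U (C - n)).eventually_lt_const
    (h.U_gt h3 ⟨hu, huv.trans hv⟩)).and (Ioo_mem_nhdsGT hu)).exists
  have := h.qc h3 le_rfl 0 s u v h2.1 h2.2 huv hv
  simp only [zero_mul, add_zero, sub_zero, lt_max_iff] at this
  exact this.resolve_left h1.not_gt

theorem Zr.congr {Q Q' : ℝ → ℝ} {S H : ℝ} (z : Zr Q S H) (r : ℝ)
    (e : ∀ u ∈ Ioo 0 S, Q' u = r * Q u) : Zr Q' S H := by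
  have e' : EqOn (fun u => Q' u * √(H - u)) (fun u => r * (Q u * √(H - u))) (Ioo 0 S) :=
    fun u hu => by simp only [e u hu, mul_assoc]
  refine ⟨(integrableOn_congr_fun e' measurableSet_Ioo).2 (z.1.const_mul r), ?_⟩
  rw [setIntegral_congr_fun measurableSet_Ioo e', integral_const_mul, z.2, mul_zero]

theorem Setup.up (h : Setup n C t S X Z) (h3 : 3 * (C - n) ≤ 3 * n + 5) {a b c H1 H2 H3 : ℝ}
    (h0 : 0 < H1) (h12 : H1 < H2) (h23 : H2 < H3) (hS : H3 ≤ S) (e1 : II n C t a b c H1 = 0)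
    (e2 : II n C t a b c H2 = 0) (e3 : II n C t a b c H3 = 0) : a = 0 ∧ b = 0 ∧ c = 0 := by
  have z : ∀ H, II n C t a b c H = 0 → Zr (QQ n (C - n) a b c X Z) S H := fun H e =>
    ⟨(h.II_eq a b c H).1, (h.II_eq a b c H).2.trans e⟩
  have fin : ∀ (R : ℝ → ℝ) (r : ℝ), (∀ u ∈ Ioo 0 S, R u = r * (a * UU n (C - n) X Z u +
      b * VV n (C - n) X Z u - c)) →
      ¬∀ s u v, 0 < s → s < u → u < v → v < S → R u < max (R s) (R v) := fun R r e q => by
    have e' : ∀ u ∈ Ioo 0 S, R u * DD n (C - n) X Z u = r * QQ n (C - n) a b c X Z u :=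
      fun u hu => by rw [e u hu, h.Q_eq _ _ _ _ hu, mul_assoc]
    exact qc_zero h0 h12 h23 hS ((z _ e1).congr r e') ((z _ e2).congr r e') ((z _ e3).congr r e') q
      (fun u hu => h.D_pos _ hu) (h.D_mono _)
  have ha : a = 0 := by
    by_contra ha
    refine fin (fun u => UU n (C - n) X Z u + b / a * VV n (C - n) X Z u - c / a) a⁻¹
      (fun u _ => by field_simp) ?_
    rcases le_total 0 (b / a) with hb | hb
    · exact h.qc h3 hb _
    · refine fun s u v s0 su uv vS => lt_max_of_lt_right ?_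
      linarith [h.U_mono h3 (s0.trans su) uv vS,
        mul_le_mul_of_nonpos_left (h.V_anti (s0.trans su) uv vS).le hb]
  have hb : b = 0 := by
    by_contra hb
    refine fin (fun u => VV n (C - n) X Z u - c / b) b⁻¹ (fun u _ => by rw [ha]; field_simp; ring)
      fun s u v s0 su uv vS => lt_max_of_lt_left ?_
    linarith [h.V_anti s0 su (uv.trans vS)]
  refine ⟨ha, hb, ?_⟩
  by_contra hc
  refine tp1 h0 (by linarith) ((z _ e1).congr (-c⁻¹) (Q' := DD n (C - n) X Z) fun u hu => ?_)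
    fun u hu => h.D_pos _ ⟨hu.1, by linarith [hu.2]⟩
  rw [h.Q_eq _ _ _ _ hu, ha, hb]
  field_simp
  ring

end Pool.Agent.Lib.MP_bf91d6_an.Mel
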